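import Mathlib
import Pool.Agent.R849.SV.Main

/-!
# Sets of integers of bounded width in base `g` and windows
-/

set_option autoImplicit false

namespace Pool.Agent.T3h26.AS

open Finset
open scoped Classical

/-- the residual set of `a < g ^ i` -/
def Res (g i : ℕ) (A : Finset ℕ) (a : ℕ) : Set ℕ := {b | a + g ^ i * b ∈ A}

/-- For every `i` the numbers `a < g ^ i` are divided into `w` classes such that for `b ≥ 0` the
question whether `a + g ^ i b` is in `A` depends only on `b` and on the class of `a`. -/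
def Width (g w : ℕ) (A : Finset ℕ) : Prop :=
  ∀ i : ℕ, ∃ σ : ℕ → Fin w, ∀ a < g ^ i, ∀ a' < g ^ i, σ a = σ a' →
    ∀ b, (a + g ^ i * b ∈ A ↔ a' + g ^ i * b ∈ A)

/-- the residual sets -/
noncomputable def RS (g i : ℕ) (A : Finset ℕ) : Finset (Set ℕ) := (range (g ^ i)).image (Res g i A)

lemma RS_card {g w : ℕ} {A : Finset ℕ} (h : Width g w A) (i : ℕ) : (RS g i A).card ≤ w := by
  obtain ⟨σ, hσ⟩ := h i
  have h1 : RS g i A ⊆ (univ : Finset (Fin w)).image (fun s =>
      if hs : ∃ a, a < g ^ i ∧ σ a = s then Res g i A hs.choose else ∅) := by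
    intro R hR
    unfold RS at hR
    rw [mem_image] at hR
    obtain ⟨a, ha, rfl⟩ := hR
    rw [mem_range] at ha
    rw [mem_image]
    refine ⟨σ a, mem_univ _, ?_⟩
    have hs : ∃ a', a' < g ^ i ∧ σ a' = σ a := ⟨a, ha, rfl⟩
    rw [dif_pos hs]
    have h2 := hs.choose_spec
    ext b
    exact hσ _ h2.1 _ ha h2.2 b
  refine (card_le_card h1).trans (card_image_le.trans ?_)
  rw [card_univ, Fintype.card_fin]

/-- the contents of a window that lead to a given residual set -/
noncomputable def TS (g C : ℕ) (A : Finset ℕ) (j y : ℕ) (R : Set ℕ) : Finset ℕ :=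
  (range (g ^ C)).filter fun t => Res g ((j + 1) * C) A (y + g ^ (j * C) * t) = R

/-- the window number `j` of `x` has at least `M` alternatives -/
def Good (g C M : ℕ) (A : Finset ℕ) (j x : ℕ) : Prop :=
  M ≤ (TS g C A j (x % g ^ (j * C)) (Res g ((j + 1) * C) A (x % g ^ ((j + 1) * C)))).card

lemma pow_dvd_succ (g C j : ℕ) : g ^ (j * C) ∣ g ^ ((j + 1) * C) :=
  pow_dvd_pow _ (Nat.mul_le_mul_right _ (Nat.le_succ _))

lemma good_congr {g C M : ℕ} {A : Finset ℕ} {i j x y : ℕ} (hij : i < j)
    (h : x % g ^ (j * C) = y % g ^ (j * C)) : Good g C M A i x ↔ Good g C M A i y := by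
  have h1 : ∀ e, e ≤ j * C → x % g ^ e = y % g ^ e := by
    intro e he
    have hd : g ^ e ∣ g ^ (j * C) := pow_dvd_pow _ he
    rw [← Nat.mod_mod_of_dvd x hd, ← Nat.mod_mod_of_dvd y hd, h]
  unfold Good
  rw [h1 (i * C) (Nat.mul_le_mul_right _ hij.le), h1 ((i + 1) * C) (Nat.mul_le_mul_right _ hij)]

section
variable {g C M w : ℕ} {A : Finset ℕ}

lemma pow_succ_mul (g C j : ℕ) : g ^ ((j + 1) * C) = g ^ (j * C) * g ^ C := by
  rw [Nat.succ_mul, pow_add]

/-- contents of a window which is not good -/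
lemma step_count (h : Width g w A) (hg : 0 < g) (j y : ℕ) (hy : y < g ^ (j * C)) :
    ((range (g ^ C)).filter fun t => ¬ Good g C M A j (y + g ^ (j * C) * t)).card ≤ M * w := by
  have hpos : 0 < g ^ (j * C) := pow_pos hg _
  set T := (range (g ^ C)).filter fun t => ¬ Good g C M A j (y + g ^ (j * C) * t) with hT
  have h1 := card_le_mul_card_image (f := fun t => Res g ((j + 1) * C) A (y + g ^ (j * C) * t)) T M
    (by
      intro R hR
      rw [mem_image] at hR
      obtain ⟨t, ht, hR⟩ := hR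
      rw [hT, mem_filter, mem_range] at ht
      have e1 : (y + g ^ (j * C) * t) % g ^ (j * C) = y := by
        rw [Nat.add_mul_mod_self_left, Nat.mod_eq_of_lt hy]
      have e2 : (y + g ^ (j * C) * t) % g ^ ((j + 1) * C) = y + g ^ (j * C) * t := by
        apply Nat.mod_eq_of_lt
        rw [pow_succ_mul]
        calc y + g ^ (j * C) * t < g ^ (j * C) + g ^ (j * C) * t := by omega
          _ = g ^ (j * C) * (t + 1) := by ring
          _ ≤ g ^ (j * C) * g ^ C := Nat.mul_le_mul_left _ ht.1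
      have h2 := ht.2
      unfold Good at h2
      rw [e1, e2] at h2
      rw [hR] at h2
      push Not at h2
      refine le_trans (card_le_card ?_) h2.le
      intro s hs
      rw [mem_filter, hT, mem_filter] at hs
      unfold TS
      rw [mem_filter]
      exact ⟨hs.1.1, hs.2⟩)
  refine h1.trans (Nat.mul_le_mul_left _ ?_)
  refine le_trans (card_le_card ?_) (RS_card h ((j + 1) * C))
  intro R hR
  rw [mem_image] at hR
  obtain ⟨t, ht, rfl⟩ := hR
  rw [hT, mem_filter, mem_range] at ht
  unfold RS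
  rw [mem_image]
  refine ⟨y + g ^ (j * C) * t, ?_, rfl⟩
  rw [mem_range, pow_succ_mul]
  calc y + g ^ (j * C) * t < g ^ (j * C) + g ^ (j * C) * t := by omega
    _ = g ^ (j * C) * (t + 1) := by ring
    _ ≤ g ^ (j * C) * g ^ C := Nat.mul_le_mul_left _ ht.1

/-- numbers without good windows -/
noncomputable def Bad (g C M : ℕ) (A : Finset ℕ) (j : ℕ) : Finset ℕ :=
  (range (g ^ (j * C))).filter fun y => ∀ i < j, ¬ Good g C M A i y

lemma bad_card (h : Width g w A) (hg : 0 < g) (j : ℕ) : (Bad g C M A j).card ≤ (M * w) ^ j := by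
  induction j with
  | zero =>
    unfold Bad
    refine (card_filter_le _ _).trans ?_
    simp
  | succ j ih =>
    have hpos : 0 < g ^ (j * C) := pow_pos hg _
    have h1 := card_le_mul_card_image (f := fun x => x % g ^ (j * C)) (Bad g C M A (j + 1)) (M * w)
      (by
        intro y hy
        rw [mem_image] at hy
        obtain ⟨z, -, hz⟩ := hy
        have hyl : y < g ^ (j * C) := by
          rw [← hz]
          exact Nat.mod_lt _ hpos
        refine le_trans ?_ (step_count (C := C) (M := M) h hg j y hyl)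
        refine card_le_card_of_injOn (fun x => x / g ^ (j * C)) ?_ ?_
        · intro x hx
          rw [mem_coe, mem_filter] at hx
          unfold Bad at hx
          rw [mem_filter, mem_range] at hx
          rw [mem_coe, mem_filter, mem_range]
          have e : y + g ^ (j * C) * (x / g ^ (j * C)) = x := by
            rw [← hx.2]
            exact Nat.mod_add_div _ _
          rw [e]
          refine ⟨?_, hx.1.2 j (Nat.lt_succ_self _)⟩
          rw [Nat.div_lt_iff_lt_mul hpos, mul_comm, ← pow_succ_mul]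
          exact hx.1.1
        · intro x hx x' hx' hxx
          rw [mem_coe, mem_filter] at hx hx'
          dsimp only at hxx
          rw [← Nat.mod_add_div x (g ^ (j * C)), ← Nat.mod_add_div x' (g ^ (j * C)), hx.2, hx'.2, hxx])
    rw [pow_succ, mul_comm ((M * w) ^ j)]
    refine h1.trans (Nat.mul_le_mul_left _ ((card_le_card ?_).trans ih))
    intro y hy
    rw [mem_image] at hy
    obtain ⟨x, hx, rfl⟩ := hy
    unfold Bad at hx ⊢
    rw [mem_filter, mem_range] at hx ⊢
    refine ⟨Nat.mod_lt _ hpos, fun i hi => ?_⟩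
    rw [good_congr (y := x) hi (Nat.mod_mod _ _)]
    exact hx.2 i (by omega)

/-- elements of `A` without good windows -/
lemma bad_in (h : Width g w A) (hg : 0 < g) (hC : 0 < C) (m : ℕ) (hA : ∀ x ∈ A, x < g ^ m) :
    (A.filter fun x => ∀ i < m / C, ¬ Good g C M A i x).card ≤ (M * w) ^ (m / C) * g ^ C := by
  have hpos : 0 < g ^ (m / C * C) := pow_pos hg _
  have h1 : (A.filter fun x => ∀ i < m / C, ¬ Good g C M A i x).card ≤
      (Bad g C M A (m / C) ×ˢ range (g ^ C)).card := by
    refine card_le_card_of_injOn (fun x => (x % g ^ (m / C * C), x / g ^ (m / C * C))) ?_ ?_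
    · intro x hx
      rw [mem_coe, mem_filter] at hx
      rw [mem_coe, mem_product, mem_range]
      constructor
      · unfold Bad
        rw [mem_filter, mem_range]
        refine ⟨Nat.mod_lt _ hpos, fun i hi => ?_⟩
        dsimp only
        rw [good_congr (y := x) hi (Nat.mod_mod _ _)]
        exact hx.2 i hi
      · dsimp only
        rw [Nat.div_lt_iff_lt_mul hpos, ← pow_add]
        refine lt_of_lt_of_le (hA x hx.1) (Nat.pow_le_pow_right hg ?_)
        have := Nat.div_add_mod m C
        have h2 := Nat.mod_lt m hC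
        rw [mul_comm] at this
        omega
    · intro x _ y _ hxy
      dsimp only at hxy
      rw [Prod.mk.injEq] at hxy
      rw [← Nat.mod_add_div x (g ^ (m / C * C)), ← Nat.mod_add_div y (g ^ (m / C * C)), hxy.1, hxy.2]
  rw [card_product, card_range] at h1
  exact h1.trans (Nat.mul_le_mul_right _ (bad_card h hg _))

/-- first good window -/
def FG (g C M : ℕ) (A : Finset ℕ) (j x : ℕ) : Prop := Good g C M A j x ∧ ∀ i < j, ¬ Good g C M A i x

lemma FG_unique {j j' x : ℕ} (h : FG g C M A j x) (h' : FG g C M A j' x) : j = j' := by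
  rcases lt_trichotomy j j' with h1 | h1 | h1
  · exact absurd h.1 (h'.2 j h1)
  · exact h1
  · exact absurd h'.1 (h.2 j' h1)

/-- the same outside the first good window -/
def rel (g C M : ℕ) (A : Finset ℕ) (x y : ℕ) : Prop :=
  ∃ j, FG g C M A j x ∧ FG g C M A j y ∧ x % g ^ (j * C) = y % g ^ (j * C) ∧
    x / g ^ ((j + 1) * C) = y / g ^ ((j + 1) * C)

lemma class_card (hg : 0 < g) {x : ℕ} (hx : x ∈ A) {j : ℕ} (hj : FG g C M A j x) :
    M ≤ (A.filter fun y => rel g C M A x y).card := by
  have hpos : 0 < g ^ (j * C) := pow_pos hg _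
  have hpos' : 0 < g ^ ((j + 1) * C) := pow_pos hg _
  refine le_trans hj.1 ?_
  refine card_le_card_of_injOn
    (fun t => x % g ^ (j * C) + g ^ (j * C) * t + g ^ ((j + 1) * C) * (x / g ^ ((j + 1) * C))) ?_ ?_
  · intro t ht
    rw [mem_coe] at ht
    unfold TS at ht
    rw [mem_filter, mem_range] at ht
    rw [mem_coe, mem_filter]
    dsimp only
    set y0 := x % g ^ (j * C) + g ^ (j * C) * t with hy0
    set b := x / g ^ ((j + 1) * C) with hb
    have hxl : x % g ^ (j * C) < g ^ (j * C) := Nat.mod_lt _ hpos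
    have hy0l : y0 < g ^ ((j + 1) * C) := by
      rw [pow_succ_mul]
      calc y0 < g ^ (j * C) + g ^ (j * C) * t := by omega
        _ = g ^ (j * C) * (t + 1) := by ring
        _ ≤ g ^ (j * C) * g ^ C := Nat.mul_le_mul_left _ ht.1
    have e1 : (y0 + g ^ ((j + 1) * C) * b) % g ^ ((j + 1) * C) = y0 := by
      rw [Nat.add_mul_mod_self_left, Nat.mod_eq_of_lt hy0l]
    have e2 : (y0 + g ^ ((j + 1) * C) * b) % g ^ (j * C) = x % g ^ (j * C) := by
      rw [← Nat.mod_mod_of_dvd _ (pow_dvd_succ g C j), e1, hy0, Nat.add_mul_mod_self_left, Nat.mod_mod]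
    have e3 : (y0 + g ^ ((j + 1) * C) * b) / g ^ ((j + 1) * C) = b := by
      rw [Nat.add_mul_div_left _ _ hpos', Nat.div_eq_of_lt hy0l, zero_add]
    have hyA : y0 + g ^ ((j + 1) * C) * b ∈ A := by
      have h2 : b ∈ Res g ((j + 1) * C) A (x % g ^ ((j + 1) * C)) := by
        show x % g ^ ((j + 1) * C) + g ^ ((j + 1) * C) * b ∈ A
        rw [hb, Nat.mod_add_div]
        exact hx
      rw [← ht.2] at h2
      exact h2
    refine ⟨hyA, j, hj, ⟨?_, ?_⟩, e2.symm, e3.symm⟩
    · have h3 := hj.1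
      unfold Good at h3 ⊢
      rw [e1, e2, ht.2]
      exact h3
    · intro i hi
      rw [good_congr (y := x) hi e2]
      exact hj.2 i hi
  · intro t ht t' ht' htt
    dsimp only at htt
    have h3 : g ^ (j * C) * t = g ^ (j * C) * t' := by omega
    exact Nat.eq_of_mul_eq_mul_left hpos h3

/-- counting in the classes -/
lemma class_count (hg : 0 < g) (Q : Finset ℕ) (hQA : Q ⊆ A)
    (hQ : ∀ x ∈ Q, ∃ j, Good g C M A j x) (d : ℕ)
    (hd : ∀ j y : ℕ, (Q.filter fun x => x % g ^ (j * C) = y % g ^ (j * C) ∧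
      x / g ^ ((j + 1) * C) = y / g ^ ((j + 1) * C)).card ≤ d) :
    M * Q.card ≤ d * A.card := by
  have h1 : M * Q.card ≤ ∑ x ∈ Q, (A.filter fun y => rel g C M A x y).card := by
    rw [mul_comm, ← smul_eq_mul, ← sum_const]
    refine sum_le_sum fun x hx => ?_
    have h2 : FG g C M A (Nat.find (hQ x hx)) x :=
      ⟨Nat.find_spec (hQ x hx), fun i hi => Nat.find_min (hQ x hx) hi⟩
    exact class_card hg (hQA hx) h2
  have h2 : ∑ x ∈ Q, (A.filter fun y => rel g C M A x y).card =
      ∑ y ∈ A, (Q.filter fun x => rel g C M A x y).card := by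
    simp only [card_filter]
    exact sum_comm
  rw [h2] at h1
  refine h1.trans ?_
  have h3 : ∑ y ∈ A, (Q.filter fun x => rel g C M A x y).card ≤ ∑ _y ∈ A, d := by
    refine sum_le_sum fun y _ => ?_
    by_cases hy : ∃ j, FG g C M A j y
    · obtain ⟨j, hj⟩ := hy
      refine le_trans (card_le_card ?_) (hd j y)
      intro x hx
      rw [mem_filter] at hx ⊢
      obtain ⟨hxQ, j', hj1, hj2, hj3, hj4⟩ := hx
      have : j' = j := FG_unique hj2 hj
      subst this
      exact ⟨hxQ, hj3, hj4⟩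
    · have : (Q.filter fun x => rel g C M A x y) = ∅ := by
        rw [filter_eq_empty_iff]
        rintro x - ⟨j, -, hj, -⟩
        exact hy ⟨j, hj⟩
      rw [this, card_empty]
      exact Nat.zero_le _
  refine h3.trans ?_
  rw [sum_const, smul_eq_mul, mul_comm]

end

/-- values divisible by a large number coprime to the difference of a progression -/
lemma card_le_degree (f : Polynomial ℤ) (hf : f.IsPrimitive) (S : Finset ℤ) (a h : ℤ) (W q : ℕ)
    (hS : ∀ x ∈ S, ∃ t : ℤ, 0 ≤ t ∧ t < W ∧ x = a + h * t) (hq : ∀ x ∈ S, (q : ℤ) ∣ f.eval x)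
    (hqh : IsCoprime (q : ℤ) h) (hW : W ^ (f.natDegree * (f.natDegree + 1)) < q) :
    S.card ≤ f.natDegree := by
  by_contra hcon
  push Not at hcon
  obtain ⟨T, hTS, hT⟩ := exists_subset_card_eq hcon
  have h1 := Pool.Agent.R849.SV.dvd_wt f hf T (by omega) q fun x hx => hq x (hTS hx)
  have ht : ∀ x : ℤ, ∃ t : ℤ, x ∈ T → 0 ≤ t ∧ t < W ∧ x = a + h * t := by
    intro x
    by_cases hx : x ∈ T
    · obtain ⟨t, ht⟩ := hS x (hTS hx)
      exact ⟨t, fun _ => ht⟩
    · exact ⟨0, fun h => absurd h hx⟩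
  choose t ht using ht
  have e1 : ∀ x ∈ T, Pool.Agent.R849.SV.wt T x =
      h ^ f.natDegree * ∏ y ∈ T.erase x, (t x - t y) := by
    intro x hx
    unfold Pool.Agent.R849.SV.wt
    have : ∀ y ∈ T.erase x, x - y = h * (t x - t y) := by
      intro y hy
      have h2 := (ht x hx).2.2
      have h3 := (ht y (mem_of_mem_erase hy)).2.2
      calc x - y = (a + h * t x) - (a + h * t y) := by rw [← h2, ← h3]
        _ = _ := by ring
    rw [prod_congr rfl this, prod_mul_distrib, prod_const, card_erase_of_mem hx, hT]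
    rfl
  have e2 : ∏ x ∈ T, Pool.Agent.R849.SV.wt T x =
      (h ^ f.natDegree) ^ (f.natDegree + 1) * ∏ x ∈ T, ∏ y ∈ T.erase x, (t x - t y) := by
    rw [prod_congr rfl e1, prod_mul_distrib, prod_const, hT]
  rw [e2] at h1
  have h2 : (q : ℤ) ∣ ∏ x ∈ T, ∏ y ∈ T.erase x, (t x - t y) :=
    ((hqh.pow_right).pow_right).dvd_of_dvd_mul_left h1
  have h3 : (∏ x ∈ T, ∏ y ∈ T.erase x, (t x - t y)) ≠ 0 := by
    have h4 : (∏ x ∈ T, Pool.Agent.R849.SV.wt T x) ≠ 0 :=
      prod_ne_zero_iff.2 fun x _ => Pool.Agent.R849.SV.wt_ne_zero T x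
    rw [e2] at h4
    exact right_ne_zero_of_mul h4
  have h4 : |∏ x ∈ T, ∏ y ∈ T.erase x, (t x - t y)| ≤
      (W : ℤ) ^ (f.natDegree * (f.natDegree + 1)) := by
    rw [abs_prod]
    have h5 : ∀ x ∈ T, |∏ y ∈ T.erase x, (t x - t y)| ≤ (W : ℤ) ^ f.natDegree := by
      intro x hx
      rw [abs_prod]
      have h6 : ∏ y ∈ T.erase x, |t x - t y| ≤ ∏ _y ∈ T.erase x, (W : ℤ) := by
        refine prod_le_prod (fun _ _ => abs_nonneg _) fun y hy => ?_
        have h7 := ht x hx
        have h8 := ht y (mem_of_mem_erase hy)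
        rw [abs_le]
        constructor <;> linarith [h7.1, h7.2.1, h8.1, h8.2.1]
      rw [prod_const, card_erase_of_mem hx, hT] at h6
      simpa using h6
    have h6 : ∏ x ∈ T, |∏ y ∈ T.erase x, (t x - t y)| ≤ ∏ _x ∈ T, (W : ℤ) ^ f.natDegree :=
      prod_le_prod (fun _ _ => abs_nonneg _) h5
    rw [prod_const, hT, ← pow_mul] at h6
    exact h6
  have h5 := Int.le_of_dvd (abs_pos.2 h3) ((dvd_abs _ _).2 h2)
  have h6 : (q : ℤ) ≤ (W : ℤ) ^ (f.natDegree * (f.natDegree + 1)) := h5.trans h4
  have h7 : q ≤ W ^ (f.natDegree * (f.natDegree + 1)) := by exact_mod_cast h6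
  omega

end Pool.Agent.T3h26.AS
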