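import Mathlib
import Pool.Agent.T3h26.AS.Width

/-!
# Polynomial values on sets of bounded width
-/

set_option autoImplicit false

namespace Pool.Agent.T3h26.AS

open Finset Pool.Agent.Y359.PE Pool.Agent.R849.SV
open scoped Classical

lemma fa_eval (f : Polynomial ℤ) {x : ℤ} (h : f.eval x ≠ 0) (p : ℕ) :
    f.primPart.eval x ≠ 0 ∧ fa (f.eval x) p = fa f.content p + fa (f.primPart.eval x) p := by
  have hfg : f = Polynomial.C f.content * f.primPart := f.eq_C_content_mul_primPart
  have e1 : f.eval x = f.content * f.primPart.eval x := by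
    conv_lhs => rw [hfg]
    rw [Polynomial.eval_mul, Polynomial.eval_C]
  have hg0 : f.primPart.eval x ≠ 0 := fun h0 => h (by rw [e1, h0, mul_zero])
  have hc0 : f.content ≠ 0 := fun h0 => h (by rw [e1, h0, zero_mul])
  refine ⟨hg0, ?_⟩
  rw [e1, fa_mul hc0 hg0]

/-- The values of a polynomial at the integers below `N` have few different valuations. -/
lemma val_count (f : Polynomial ℤ) (X : Finset ℤ) (N L : ℕ)
    (hX : ∀ x ∈ X, 0 ≤ x ∧ x < N) (hL : N ≤ 2 ^ L) {p : ℕ} (hp : p.Prime) :
    ((vals f X).image fun a => fa a p).card ≤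
      f.natDegree + 1 + f.natDegree * (f.natDegree + 1) * L := by
  set d := f.natDegree with hd
  set I := (vals f X).image fun a => fa a p with hI
  set e := fa f.content p with he
  have hpt : ∀ v ∈ I, ∃ x ∈ X, f.eval x ≠ 0 ∧ fa (f.eval x) p = v := by
    intro v hv
    rw [hI, mem_image] at hv
    obtain ⟨a, ha, rfl⟩ := hv
    unfold vals at ha
    rw [mem_erase, mem_image] at ha
    obtain ⟨h0, x, hx, rfl⟩ := ha
    exact ⟨x, hx, h0, rfl⟩
  by_contra hcon
  push Not at hcon
  set T := I.filter fun v => e + d * (d + 1) * L < v with hT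
  have h1 : I.card ≤ T.card + (d * (d + 1) * L + 1) := by
    have h2 : I \ T ⊆ Icc e (e + d * (d + 1) * L) := by
      intro v hv
      rw [mem_sdiff, hT, mem_filter] at hv
      obtain ⟨hv1, hv2⟩ := hv
      obtain ⟨x, hx, hx0, hxv⟩ := hpt v hv1
      have h3 := (fa_eval f hx0 p).2
      rw [mem_Icc]
      constructor
      · rw [← hxv, h3]
        omega
      · by_contra h4
        exact hv2 ⟨hv1, by omega⟩
    have h3 := card_le_card h2
    rw [Nat.card_Icc] at h3
    have h4 : I.card ≤ T.card + (I \ T).card := by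
      have := card_sdiff_add_card_eq_card (filter_subset (fun v => e + d * (d + 1) * L < v) I)
      rw [← hT] at this
      omega
    omega
  have h2 : d + 1 ≤ T.card := by omega
  have hpt2 : ∀ v : ℕ, ∃ x : ℤ, v ∈ T → x ∈ X ∧ f.eval x ≠ 0 ∧ fa (f.eval x) p = v := by
    intro v
    by_cases hv : v ∈ T
    · obtain ⟨x, hx⟩ := hpt v (mem_of_mem_filter _ hv)
      exact ⟨x, fun _ => hx⟩
    · exact ⟨0, fun h => absurd h hv⟩
  choose x hx using hpt2
  have hinj : Set.InjOn x T := by
    intro v hv v' hv' hvv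
    rw [← (hx v hv).2.2, ← (hx v' hv').2.2, hvv]
  have h3 : (T.image x).card = T.card := card_image_of_injOn hinj
  have h4 := Pool.Agent.R849.SV.card_le_degree f.primPart f.isPrimitive_primPart (T.image x) N
    (p ^ (d * (d + 1) * L + 1)) (by
      intro a ha b hb
      rw [mem_image] at ha hb
      obtain ⟨v, hv, rfl⟩ := ha
      obtain ⟨v', hv', rfl⟩ := hb
      have h5 := hX _ (hx v hv).1
      have h6 := hX _ (hx v' hv').1
      rw [abs_le]
      constructor <;> linarith [h5.1, h5.2, h6.1, h6.2]) (by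
      intro a ha
      rw [mem_image] at ha
      obtain ⟨v, hv, rfl⟩ := ha
      obtain ⟨h5, h6, h7⟩ := hx v hv
      have h8 := fa_eval f h6 p
      have h9 : d * (d + 1) * L + 1 ≤ fa (f.primPart.eval (x v)) p := by
        have h10 := (mem_filter.1 (hT ▸ hv)).2
        rw [← h7, h8.2] at h10
        omega
      exact (le_fa_iff h8.1 hp _).1 h9) (by
      rw [f.natDegree_primPart, ← hd]
      calc N ^ (d * (d + 1)) ≤ (2 ^ L) ^ (d * (d + 1)) := Nat.pow_le_pow_left hL _
        _ = 2 ^ (d * (d + 1) * L) := by rw [← pow_mul, mul_comm]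
        _ < 2 ^ (d * (d + 1) * L + 1) := Nat.pow_lt_pow_right (by norm_num) (Nat.lt_succ_self _)
        _ ≤ p ^ (d * (d + 1) * L + 1) := Nat.pow_le_pow_left hp.two_le _)
  rw [h3, f.natDegree_primPart, ← hd] at h4
  omega

/-- the number of the vectors of valuations -/
lemma parts_count (P : Finset ℕ) (hP : ∀ p ∈ P, p.Prime) (V : Finset ℤ) (n : ℕ)
    (h : ∀ p ∈ P, (V.image fun a => fa a p).card ≤ n) : (parts P V).card ≤ n ^ P.card := by
  have h1 : (parts P V).card ≤ (Fintype.piFinset fun p : P => V.image fun a => fa a p).card := by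
    refine card_le_card_of_injOn (fun v (p : P) => v p) ?_ ?_
    · intro v hv
      rw [mem_coe] at hv
      unfold parts at hv
      rw [mem_image] at hv
      obtain ⟨a, ha, rfl⟩ := hv
      rw [mem_coe, Fintype.mem_piFinset]
      intro p
      rw [mem_image]
      refine ⟨a, ha, ?_⟩
      dsimp only
      rw [if_pos p.2]
    · intro v hv v' hv' hvv
      rw [mem_coe] at hv hv'
      unfold parts at hv hv'
      rw [mem_image] at hv hv'
      obtain ⟨a, -, rfl⟩ := hv
      obtain ⟨b, -, rfl⟩ := hv'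
      funext p
      by_cases hp : p ∈ P
      · exact congrFun hvv ⟨p, hp⟩
      · simp only [if_neg hp]
  refine h1.trans ?_
  rw [Fintype.card_piFinset]
  refine (prod_le_prod (fun _ _ => Nat.zero_le _) (fun (p : P) _ => h p p.2)).trans ?_
  rw [prod_const, card_univ, Fintype.card_coe]

/-- few values divisible by a large prime power -/
lemma few_divisible {g C M w m : ℕ} {A : Finset ℕ} (h : Width g w A) (hg : 0 < g) (hC : 0 < C)
    (hA : ∀ x ∈ A, x < g ^ m) (f : Polynomial ℤ) (hf : 0 < f.natDegree) (B : Finset ℕ) (hBA : B ⊆ A)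
    {p m0 : ℕ} (hp : p.Prime) (hpg : ¬ p ∣ g)
    (hm0 : (g ^ C) ^ (f.natDegree * (f.natDegree + 1)) < m0) :
    M * ((vals f (B.image fun x : ℕ => (x : ℤ))).filter fun a =>
      m0 ≤ p ^ ((fa a p : ℤ) - fa f.content p).natAbs).card ≤
      f.natDegree * A.card + M * ((M * w) ^ (m / C) * g ^ C) := by
  set j0 := Nat.clog p m0 with hj0
  have hpj : m0 ≤ p ^ j0 := Nat.le_pow_clog hp.one_lt m0
  set Q := B.filter fun x : ℕ => ((p ^ j0 : ℕ) : ℤ) ∣ f.primPart.eval (x : ℤ) with hQ
  have h1 : ((vals f (B.image fun x : ℕ => (x : ℤ))).filter fun a =>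
      m0 ≤ p ^ ((fa a p : ℤ) - fa f.content p).natAbs).card ≤ Q.card := by
    have hsub : ((vals f (B.image fun x : ℕ => (x : ℤ))).filter fun a =>
      m0 ≤ p ^ ((fa a p : ℤ) - fa f.content p).natAbs) ⊆ Q.image fun x : ℕ => f.eval (x : ℤ) := by
      intro a ha
      rw [mem_filter] at ha
      unfold vals at ha
      rw [mem_erase, mem_image] at ha
      obtain ⟨⟨ha0, x, hx, rfl⟩, ha2⟩ := ha
      rw [mem_image] at hx
      obtain ⟨x, hx, rfl⟩ := hx
      rw [mem_image]
      refine ⟨x, ?_, rfl⟩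
      rw [hQ, mem_filter]
      refine ⟨hx, ?_⟩
      obtain ⟨hg0, e1⟩ := fa_eval f ha0 p
      rw [e1] at ha2
      have e2 : ((fa f.content p + fa (f.primPart.eval (x : ℤ)) p : ℕ) : ℤ) - fa f.content p =
          (fa (f.primPart.eval (x : ℤ)) p : ℤ) := by
        push_cast
        ring
      rw [e2, Int.natAbs_natCast] at ha2
      have h3 : j0 ≤ fa (f.primPart.eval (x : ℤ)) p := Nat.clog_le_of_le_pow ha2
      exact (le_fa_iff hg0 hp j0).1 h3
    exact (card_le_card hsub).trans card_image_le
  refine (Nat.mul_le_mul_left _ h1).trans ?_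
  set Q1 := Q.filter fun x => ∃ i, Good g C M A i x with hQ1
  set Q2 := Q.filter fun x => ¬ ∃ i, Good g C M A i x with hQ2
  have h2 : Q.card = Q1.card + Q2.card := (card_filter_add_card_filter_not _).symm
  have h3 : Q2.card ≤ (M * w) ^ (m / C) * g ^ C := by
    refine le_trans (card_le_card ?_) (bad_in h hg hC m hA)
    intro x hx
    rw [hQ2, mem_filter, hQ, mem_filter] at hx
    rw [mem_filter]
    exact ⟨hBA hx.1.1, fun i _ hi => hx.2 ⟨i, hi⟩⟩
  have h4 : M * Q1.card ≤ f.natDegree * A.card := by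
    refine class_count (C := C) hg Q1 ?_ ?_ _ ?_
    · intro x hx
      rw [hQ1, mem_filter, hQ, mem_filter] at hx
      exact hBA hx.1.1
    · intro x hx
      rw [hQ1, mem_filter] at hx
      exact hx.2
    · intro j y
      have hpos : 0 < g ^ (j * C) := pow_pos hg _
      set S := Q1.filter fun x => x % g ^ (j * C) = y % g ^ (j * C) ∧
        x / g ^ ((j + 1) * C) = y / g ^ ((j + 1) * C) with hS
      have h5 : S.card = (S.image fun x : ℕ => (x : ℤ)).card :=
        (card_image_of_injective _ Nat.cast_injective).symm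
      rw [h5]
      refine le_trans (card_le_degree f.primPart f.isPrimitive_primPart _
        ((y % g ^ (j * C) + g ^ ((j + 1) * C) * (y / g ^ ((j + 1) * C)) : ℕ) : ℤ)
        ((g ^ (j * C) : ℕ) : ℤ) (g ^ C) (p ^ j0) ?_ ?_ ?_ ?_) (le_of_eq f.natDegree_primPart)
      · intro x hx
        rw [mem_image] at hx
        obtain ⟨x, hx, rfl⟩ := hx
        rw [hS, mem_filter] at hx
        refine ⟨((x / g ^ (j * C) % g ^ C : ℕ) : ℤ), by positivity, ?_, ?_⟩
        · exact_mod_cast Nat.mod_lt _ (pow_pos hg _)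
        · have e3 : x / g ^ ((j + 1) * C) = x / g ^ (j * C) / g ^ C := by
            rw [pow_succ_mul, Nat.div_div_eq_div_mul]
          have e4 : x = x % g ^ (j * C) + g ^ ((j + 1) * C) * (x / g ^ ((j + 1) * C)) +
              g ^ (j * C) * (x / g ^ (j * C) % g ^ C) := by
            rw [e3, pow_succ_mul]
            have h6 := Nat.mod_add_div x (g ^ (j * C))
            have h7 := Nat.mod_add_div (x / g ^ (j * C)) (g ^ C)
            calc x = x % g ^ (j * C) + g ^ (j * C) * (x / g ^ (j * C)) := h6.symm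
              _ = x % g ^ (j * C) + g ^ (j * C) *
                  (x / g ^ (j * C) % g ^ C + g ^ C * (x / g ^ (j * C) / g ^ C)) := by rw [h7]
              _ = _ := by ring
          rw [hx.2.1, hx.2.2] at e4
          exact_mod_cast e4
      · intro x hx
        rw [mem_image] at hx
        obtain ⟨x, hx, rfl⟩ := hx
        rw [hS, mem_filter, hQ1, mem_filter, hQ, mem_filter] at hx
        exact hx.1.1.2
      · rw [Nat.isCoprime_iff_coprime]
        exact Nat.Coprime.pow _ _ ((Nat.Prime.coprime_iff_not_dvd hp).2 hpg)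
      · rw [f.natDegree_primPart]
        omega
  rw [h2, mul_add]
  exact Nat.add_le_add h4 (Nat.mul_le_mul_left _ h3)

end Pool.Agent.T3h26.AS
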