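import Mathlib
import Pool.Agent.T3h26.AS.Vals

/-!
# Products of polynomial values on large sets of bounded width
-/

set_option autoImplicit false

namespace Pool.Agent.T3h26.AS

open Finset Pool.Agent.Y359.PE Pool.Agent.R849.SV
open scoped Classical

/-- polynomial against exponential growth -/
lemma poly_exp (n : ℕ) (s : ℝ) (hs : 0 < s) (m : ℕ) :
    ((m : ℝ) + 1) ^ n ≤ (1 / s) ^ n * Real.exp (s * n * (m + 1)) := by
  have h1 : s * ((m : ℝ) + 1) ≤ Real.exp (s * (m + 1)) := by
    have := Real.add_one_le_exp (s * ((m : ℝ) + 1))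
    linarith
  have h2 : (m : ℝ) + 1 ≤ 1 / s * Real.exp (s * (m + 1)) := by
    rw [one_div, ← div_eq_inv_mul, le_div_iff₀ hs]
    linarith
  have h3 : (0 : ℝ) ≤ (m : ℝ) + 1 := by positivity
  calc ((m : ℝ) + 1) ^ n ≤ (1 / s * Real.exp (s * (m + 1))) ^ n := pow_le_pow_left₀ h3 h2 n
    _ = (1 / s) ^ n * Real.exp (s * n * (m + 1)) := by
      rw [mul_pow, ← Real.exp_nat_mul]
      congr 2
      ring

/-- the final computation -/
lemma final_ineq {c0 β V D κ ε' G K C1 : ℝ} {dd : ℝ} (k : ℕ) (hc0 : 0 < c0) (hβ : 1 ≤ β)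
    (hdd : 1 ≤ dd) (hV : β ≤ dd * V) (hD1 : 1 ≤ D) (hκ : 0 ≤ κ) (hκk : κ ≤ k)
    (hε : 0 ≤ ε') (hε1 : ε' ≤ 1) (hG : 0 < G) (hGβ : G ≤ K * β) (hK : 1 ≤ K) (hC1 : 0 < C1)
    (hDG : D ^ (k : ℝ) ≤ C1 * G ^ ε') :
    c0 / (dd ^ (k : ℝ) * C1 * K) * β ^ (κ - ε') ≤ c0 * (V / D) ^ κ := by
  have hV0 : 0 < V := by
    by_contra h
    push Not at h
    have : dd * V ≤ 0 := mul_nonpos_of_nonneg_of_nonpos (by linarith) h
    linarith
  have hβ0 : 0 < β := by linarith
  have h1 : β ^ κ / (dd ^ (k : ℝ) * D ^ (k : ℝ)) ≤ (V / D) ^ κ := by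
    have h2 : β / (dd * D) ≤ V / D := by
      rw [div_le_div_iff₀ (by positivity) (by positivity)]
      calc β * D ≤ dd * V * D := mul_le_mul_of_nonneg_right hV (by linarith)
        _ = V * (dd * D) := by ring
    have h3 := Real.rpow_le_rpow (by positivity) h2 hκ
    refine le_trans ?_ h3
    rw [Real.div_rpow hβ0.le (by positivity), Real.mul_rpow (by linarith) (by linarith)]
    have h4 : dd ^ κ ≤ dd ^ (k : ℝ) := Real.rpow_le_rpow_of_exponent_le hdd hκk
    have h5 : D ^ κ ≤ D ^ (k : ℝ) := Real.rpow_le_rpow_of_exponent_le hD1 hκk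
    have h6 : dd ^ κ * D ^ κ ≤ dd ^ (k : ℝ) * D ^ (k : ℝ) :=
      mul_le_mul h4 h5 (by positivity) (by positivity)
    exact div_le_div_of_nonneg_left (by positivity) (by positivity) h6
  have h2 : G ^ ε' ≤ K * β ^ ε' := by
    calc G ^ ε' ≤ (K * β) ^ ε' := Real.rpow_le_rpow hG.le hGβ hε
      _ = K ^ ε' * β ^ ε' := Real.mul_rpow (by linarith) hβ0.le
      _ ≤ K * β ^ ε' := by
        refine mul_le_mul_of_nonneg_right ?_ (by positivity)
        calc K ^ ε' ≤ K ^ (1 : ℝ) := Real.rpow_le_rpow_of_exponent_le hK hε1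
          _ = K := Real.rpow_one K
  have h3 : D ^ (k : ℝ) ≤ C1 * K * β ^ ε' := by
    calc D ^ (k : ℝ) ≤ C1 * G ^ ε' := hDG
      _ ≤ C1 * (K * β ^ ε') := mul_le_mul_of_nonneg_left h2 hC1.le
      _ = _ := by ring
  calc c0 / (dd ^ (k : ℝ) * C1 * K) * β ^ (κ - ε') =
      c0 * (β ^ κ / (dd ^ (k : ℝ) * (C1 * K * β ^ ε'))) := by
        rw [Real.rpow_sub hβ0]
        field_simp
    _ ≤ c0 * (β ^ κ / (dd ^ (k : ℝ) * D ^ (k : ℝ))) := by
        refine mul_le_mul_of_nonneg_left ?_ hc0.le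
        refine div_le_div_of_nonneg_left (by positivity) (by positivity) ?_
        exact mul_le_mul_of_nonneg_left h3 (by positivity)
    _ ≤ c0 * (V / D) ^ κ := mul_le_mul_of_nonneg_left h1 hc0.le

/-- **Main theorem on sets of bounded width.** -/
theorem wide (k : ℕ) (hk : 1 ≤ k) (ε : ℝ) (hε : 0 < ε) (hε1 : ε ≤ 1) (d g w : ℕ) (hg : 2 ≤ g)
    (θ K : ℝ) (hθ : 0 < θ) (hK : 1 ≤ K) :
    ∃ c : ℝ, 0 < c ∧ ∀ (m : ℕ) (A : Finset ℕ), (∀ x ∈ A, x < g ^ m) → Width g w A →
      (g : ℝ) ^ (θ * m) ≤ A.card → ∀ B ⊆ A, (A.card : ℝ) ≤ K * B.card →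
      ∀ f : Polynomial ℤ, 1 ≤ f.natDegree → f.natDegree ≤ d →
      (vals f (B.image fun x : ℕ => (x : ℤ))).Nonempty →
      c * (B.card : ℝ) ^ ((k : ℝ) - ε) ≤ (pk k (vals f (B.image fun x : ℕ => (x : ℤ)))).card := by
  have hkr : (1 : ℝ) ≤ k := by exact_mod_cast hk
  have hgr : (2 : ℝ) ≤ g := by exact_mod_cast hg
  have hg0 : (0 : ℝ) < g := by linarith
  have hg1 : (1 : ℝ) < g := by linarith
  have hlg : 0 < Real.log g := Real.log_pos hg1
  set ε' : ℝ := ε / 2 with hε'
  have hε'0 : 0 < ε' := by positivity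
  obtain ⟨δ, hδ, hsp⟩ := spread k hk ε' hε'0 (by linarith)
  -- the parameters
  obtain ⟨M, hM⟩ := exists_nat_ge (2 * d * (d + 1) * K / δ + 1)
  have hM0 : (0 : ℝ) < M := by
    have : 0 ≤ 2 * d * (d + 1) * K / δ := by positivity
    linarith
  have hMpos : 0 < M := by exact_mod_cast hM0
  have hMδ : 2 * d * (d + 1) * K ≤ δ * M := by
    have h1 : 2 * d * (d + 1) * K / δ ≤ M := by linarith
    rw [div_le_iff₀ hδ] at h1
    linarith
  have hgθ : (1 : ℝ) < (g : ℝ) ^ (θ / 2) := Real.one_lt_rpow hg1 (by linarith)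
  obtain ⟨C, hC⟩ := pow_unbounded_of_one_lt ((M : ℝ) * w + 1) hgθ
  have hCpos : 0 < C := by
    rcases Nat.eq_zero_or_pos C with h | h
    · rw [h, pow_zero] at hC
      have : (0 : ℝ) ≤ (M : ℝ) * w := by positivity
      linarith
    · exact h
  have hMwC : (M : ℝ) * w ≤ (g : ℝ) ^ (θ / 2 * C) := by
    rw [Real.rpow_mul hg0.le, Real.rpow_natCast]
    linarith
  set m0 : ℕ := (g ^ C) ^ (d * (d + 1)) + 1 with hm0
  obtain ⟨c0, hc0, hsp⟩ := hsp m0
  obtain ⟨m1, hm1⟩ := pow_unbounded_of_one_lt ((M : ℝ) * g ^ C) hgθ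
  set n : ℕ := g.primeFactors.card * k with hn
  set F : ℝ := ((d + 1 + d * (d + 1) * g : ℕ) : ℝ) with hF
  have hF1 : 1 ≤ F := by
    rw [hF]
    exact_mod_cast (by omega : 1 ≤ d + 1 + d * (d + 1) * g)
  set s : ℝ := ε' * θ * Real.log g / (n + 1) with hs
  have hs0 : 0 < s := by positivity
  set C1 : ℝ := F ^ n * ((1 / s) ^ n * (g : ℝ) ^ (θ * ε')) with hC1
  have hC10 : 0 < C1 := by positivity
  set dd : ℝ := 2 * d + 1 with hdd
  have hdd1 : 1 ≤ dd := by
    have : (0 : ℝ) ≤ d := Nat.cast_nonneg d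
    rw [hdd]; linarith
  refine ⟨min (c0 / (dd ^ (k : ℝ) * C1 * K)) (1 / ((g : ℝ) ^ m1) ^ (k : ℝ)), by positivity, ?_⟩
  intro m A hA hW hAc B hBA hAB f hf hfd hV
  set X := B.image fun x : ℕ => (x : ℤ) with hX
  set V := vals f X with hVdef
  have hXc : X.card = B.card := card_image_of_injective _ Nat.cast_injective
  have hVpos : 0 < V.card := card_pos.2 hV
  have hBpos : 0 < B.card := by
    rw [← hXc, card_pos]
    obtain ⟨a, ha⟩ := hV
    rw [hVdef] at ha
    unfold vals at ha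
    rw [mem_erase, mem_image] at ha
    obtain ⟨-, x, hx, -⟩ := ha
    exact ⟨x, hx⟩
  have hB1 : (1 : ℝ) ≤ B.card := by exact_mod_cast hBpos
  have hpk1 : (1 : ℝ) ≤ (pk k V).card := by
    exact_mod_cast card_pos.2 (pk_nonempty hV)
  have hκ : (0 : ℝ) ≤ (k : ℝ) - ε := by linarith
  rcases lt_or_ge m m1 with hmm | hmm
  · -- few elements
    have h1 : (B.card : ℝ) ≤ (g : ℝ) ^ m1 := by
      have h2 : B.card ≤ (range (g ^ m1)).card := by
        refine card_le_card fun x hx => ?_
        rw [mem_range]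
        exact (hA x (hBA hx)).trans_le (Nat.pow_le_pow_right (by omega) hmm.le)
      rw [card_range] at h2
      exact_mod_cast h2
    have h2 : (B.card : ℝ) ^ ((k : ℝ) - ε) ≤ ((g : ℝ) ^ m1) ^ (k : ℝ) :=
      (Real.rpow_le_rpow_of_exponent_le hB1 (by linarith)).trans
        (Real.rpow_le_rpow (by linarith) h1 (by linarith))
    refine le_trans ?_ hpk1
    calc _ ≤ 1 / ((g : ℝ) ^ m1) ^ (k : ℝ) * (B.card : ℝ) ^ ((k : ℝ) - ε) :=
          mul_le_mul_of_nonneg_right (min_le_right _ _) (by positivity)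
      _ ≤ 1 := by
        rw [one_div, ← div_eq_inv_mul, div_le_one (by positivity)]
        exact h2
  · -- the main case
    have hd1 : 1 ≤ d := hf.trans hfd
    have hVc : (B.card : ℝ) ≤ 2 * d * V.card := by
      have h1 := card_vals f (by omega) X
      rw [hXc] at h1
      have h2 : f.natDegree * ((vals f X).card + 1) ≤ d * (2 * V.card) := by
        refine Nat.mul_le_mul hfd ?_
        rw [← hVdef]
        omega
      have h3 : B.card ≤ d * (2 * V.card) := h1.trans h2
      calc (B.card : ℝ) ≤ (d * (2 * V.card) : ℕ) := by exact_mod_cast h3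
        _ = 2 * d * V.card := by push_cast; ring
    have hAK : ((A.card : ℕ) : ℝ) ≤ K * (2 * d * V.card) :=
      hAB.trans (mul_le_mul_of_nonneg_left hVc (by linarith))
    -- elements without good windows
    have hbad : (M : ℝ) * (((M : ℝ) * w) ^ (m / C) * (g : ℝ) ^ C) ≤ A.card := by
      have h1 : ((M : ℝ) * w) ^ (m / C) ≤ (g : ℝ) ^ (θ / 2 * m) := by
        calc ((M : ℝ) * w) ^ (m / C) ≤ ((g : ℝ) ^ (θ / 2 * C)) ^ (m / C) :=
              pow_le_pow_left₀ (by positivity) hMwC _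
          _ = (g : ℝ) ^ (θ / 2 * C * (m / C : ℕ)) := by
            rw [← Real.rpow_natCast, ← Real.rpow_mul hg0.le]
          _ ≤ (g : ℝ) ^ (θ / 2 * m) := by
            refine Real.rpow_le_rpow_of_exponent_le hg1.le ?_
            have h2 : ((C * (m / C) : ℕ) : ℝ) ≤ m := by exact_mod_cast Nat.mul_div_le m C
            push_cast at h2
            calc θ / 2 * C * ((m / C : ℕ) : ℝ) = θ / 2 * (C * ((m / C : ℕ) : ℝ)) := by ring
              _ ≤ θ / 2 * m := mul_le_mul_of_nonneg_left h2 (by linarith)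
      have h2 : (M : ℝ) * (g : ℝ) ^ C ≤ (g : ℝ) ^ (θ / 2 * m) := by
        calc (M : ℝ) * (g : ℝ) ^ C ≤ ((g : ℝ) ^ (θ / 2)) ^ m1 := hm1.le
          _ ≤ ((g : ℝ) ^ (θ / 2)) ^ m := pow_le_pow_right₀ hgθ.le hmm
          _ = (g : ℝ) ^ (θ / 2 * m) := by rw [← Real.rpow_natCast, ← Real.rpow_mul hg0.le]
      calc (M : ℝ) * (((M : ℝ) * w) ^ (m / C) * (g : ℝ) ^ C) =
          ((M : ℝ) * w) ^ (m / C) * ((M : ℝ) * (g : ℝ) ^ C) := by ring
        _ ≤ (g : ℝ) ^ (θ / 2 * m) * (g : ℝ) ^ (θ / 2 * m) := by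
          exact mul_le_mul h1 h2 (by positivity) (by positivity)
        _ = (g : ℝ) ^ (θ * m) := by
          rw [← Real.rpow_add hg0]
          congr 1
          ring
        _ ≤ A.card := hAc
    -- the primes not dividing `g`
    have hspread : ∀ p, p.Prime → p ∉ g.primeFactors →
        ((V.filter fun a => m0 ≤ p ^ ((fa a p : ℤ) - (fun p => fa f.content p) p).natAbs).card : ℝ) ≤
          δ * V.card := by
      intro p hp hpg
      have hpg' : ¬ p ∣ g := fun h => hpg (Nat.mem_primeFactors.2 ⟨hp, h, by omega⟩)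
      have h1 := few_divisible (M := M) hW (by omega) hCpos hA f (by omega) B hBA hp hpg'
        (m0 := m0) (by
          rw [hm0, Nat.lt_succ_iff]
          refine Nat.pow_le_pow_right (pow_pos (by omega) _) ?_
          exact Nat.mul_le_mul hfd (by omega))
      rw [← hX, ← hVdef] at h1
      have h2 : (M : ℝ) * ((V.filter fun a =>
          m0 ≤ p ^ ((fa a p : ℤ) - fa f.content p).natAbs).card : ℝ) ≤
          d * A.card + A.card := by
        calc _ ≤ ((f.natDegree * A.card + M * ((M * w) ^ (m / C) * g ^ C) : ℕ) : ℝ) := by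
              exact_mod_cast h1
          _ = f.natDegree * A.card + M * (((M : ℝ) * w) ^ (m / C) * (g : ℝ) ^ C) := by
              push_cast; ring
          _ ≤ d * A.card + A.card := by
              refine add_le_add ?_ hbad
              exact mul_le_mul_of_nonneg_right (by exact_mod_cast hfd) (Nat.cast_nonneg _)
      have h3 : (M : ℝ) * ((V.filter fun a =>
          m0 ≤ p ^ ((fa a p : ℤ) - fa f.content p).natAbs).card : ℝ) ≤ M * (δ * V.card) := by
        calc _ ≤ (d : ℝ) * (A.card : ℝ) + (A.card : ℝ) := h2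
          _ = (d + 1) * (A.card : ℝ) := by ring
          _ ≤ (d + 1) * (K * (2 * d * V.card)) := by
            exact mul_le_mul_of_nonneg_left hAK (by positivity)
          _ = 2 * d * (d + 1) * K * V.card := by ring
          _ ≤ δ * M * V.card := mul_le_mul_of_nonneg_right hMδ (Nat.cast_nonneg _)
          _ = M * (δ * V.card) := by ring
      exact le_of_mul_le_mul_left h3 hM0
    have h1 := hsp V hV (notMem_erase _ _) g.primeFactors (fun p => fa f.content p) hspread
    -- the number of the valuation vectors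
    have hDle : ((parts g.primeFactors V).card : ℝ) ≤ (F * (m + 1)) ^ g.primeFactors.card := by
      have h2 : (parts g.primeFactors V).card ≤
          (d + 1 + d * (d + 1) * (g * m)) ^ g.primeFactors.card := by
        refine parts_count _ (fun p hp => Nat.prime_of_mem_primeFactors hp) V _ fun p hp => ?_
        have h3 := val_count f X (g ^ m) (g * m) (by
          intro x hx
          rw [hX, mem_image] at hx
          obtain ⟨x, hx, rfl⟩ := hx
          exact ⟨Int.natCast_nonneg _, by exact_mod_cast hA x (hBA hx)⟩) (by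
          rw [pow_mul]
          exact Nat.pow_le_pow_left Nat.lt_two_pow_self.le _) (Nat.prime_of_mem_primeFactors hp)
        rw [← hVdef] at h3
        refine h3.trans ?_
        have h4 : f.natDegree * (f.natDegree + 1) * (g * m) ≤ d * (d + 1) * (g * m) :=
          Nat.mul_le_mul_right _ (Nat.mul_le_mul hfd (by omega))
        omega
      calc ((parts g.primeFactors V).card : ℝ) ≤
          ((d + 1 + d * (d + 1) * (g * m) : ℕ) : ℝ) ^ g.primeFactors.card := by exact_mod_cast h2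
        _ ≤ (F * (m + 1)) ^ g.primeFactors.card := by
          refine pow_le_pow_left₀ (Nat.cast_nonneg _) ?_ _
          rw [hF]
          push_cast
          have h5 : (0 : ℝ) ≤ m := Nat.cast_nonneg m
          have h6 : (0 : ℝ) ≤ d := Nat.cast_nonneg d
          have h7 : (0 : ℝ) ≤ d * m := by positivity
          have h8 : (0 : ℝ) ≤ d * (d + 1) * g := by positivity
          nlinarith
    have hD1 : (1 : ℝ) ≤ (parts g.primeFactors V).card := by
      exact_mod_cast card_pos.2 (parts_nonempty _ hV)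
    have hDG : ((parts g.primeFactors V).card : ℝ) ^ (k : ℝ) ≤ C1 * ((g : ℝ) ^ (θ * m)) ^ ε' := by
      rw [Real.rpow_natCast]
      calc ((parts g.primeFactors V).card : ℝ) ^ k ≤ ((F * (m + 1)) ^ g.primeFactors.card) ^ k :=
            pow_le_pow_left₀ (by linarith) hDle k
        _ = F ^ n * ((m : ℝ) + 1) ^ n := by rw [← pow_mul, mul_pow]
        _ ≤ F ^ n * ((1 / s) ^ n * Real.exp (s * n * (m + 1))) :=
            mul_le_mul_of_nonneg_left (poly_exp n s hs0 m) (by positivity)
        _ ≤ F ^ n * ((1 / s) ^ n * ((g : ℝ) ^ (θ * ε') * ((g : ℝ) ^ (θ * m)) ^ ε')) := by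
            refine mul_le_mul_of_nonneg_left (mul_le_mul_of_nonneg_left ?_ (by positivity))
              (by positivity)
            rw [← Real.rpow_mul hg0.le, ← Real.rpow_add hg0, Real.rpow_def_of_pos hg0]
            refine Real.exp_le_exp.2 ?_
            have h5 : s * n ≤ ε' * θ * Real.log g := by
              rw [hs, div_mul_eq_mul_div, div_le_iff₀ (by positivity)]
              refine mul_le_mul_of_nonneg_left (by linarith) (by positivity)
            calc s * n * (m + 1) ≤ ε' * θ * Real.log g * (m + 1) :=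
                  mul_le_mul_of_nonneg_right h5 (by positivity)
              _ = Real.log g * (θ * ε' + θ * m * ε') := by ring
        _ = C1 * ((g : ℝ) ^ (θ * m)) ^ ε' := by rw [hC1]; ring
    have h2 := final_ineq (β := B.card) (V := V.card) (D := (parts g.primeFactors V).card)
      (κ := (k : ℝ) - ε') (ε' := ε') (G := (g : ℝ) ^ (θ * m)) (K := K) (C1 := C1) (dd := dd) k hc0
      hB1 hdd1 (by
        rw [hdd]
        have : (0 : ℝ) ≤ V.card := Nat.cast_nonneg _
        nlinarith) hD1 (by linarith) (by linarith) hε'0.le (by linarith) (by positivity)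
      (hAc.trans hAB) hK hC10 hDG
    have e1 : (k : ℝ) - ε' - ε' = (k : ℝ) - ε := by rw [hε']; ring
    rw [e1] at h2
    calc _ ≤ c0 / (dd ^ (k : ℝ) * C1 * K) * (B.card : ℝ) ^ ((k : ℝ) - ε) :=
          mul_le_mul_of_nonneg_right (min_le_left _ _) (by positivity)
      _ ≤ c0 * ((V.card : ℝ) / (parts g.primeFactors V).card) ^ ((k : ℝ) - ε') := h2
      _ ≤ (pk k V).card := h1

end Pool.Agent.T3h26.AS
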