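import Mathlib
import Pool.Agent.N449.SP.Ints

/-!
# Walks of automata and numbers: closed walks
-/

set_option autoImplicit false

namespace Pool.Agent.T3h26.AS

open Finset Pool.Agent.N449.SP

/-- two different closed walks of the same length -/
def Br {Q : Type} (g : ℕ) (δ : Q → ℕ → Q) (q : Q) : Prop :=
  ∃ v v' : List ℕ, v ≠ v' ∧ v.length = v'.length ∧ (∀ x ∈ v, x < g) ∧ (∀ x ∈ v', x < g) ∧
    v.foldl δ q = q ∧ v'.foldl δ q = q

lemma short1 {B g c e : ℕ} (hc : c ≤ B) (hg : g ≤ B) (hg0 : g ≠ 0) (x : ℤ)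
    (hx : x = c * g ^ e ∨ x = -(c * g ^ e)) : ShortInt (range (B + 1)) 1 x := by
  refine ⟨fun _ => x, fun _ => ?_, by simp⟩
  by_cases hc0 : c = 0
  · left
    rcases hx with rfl | rfl <;> simp [hc0]
  · right
    intro p hp hpx
    have h1 : (p : ℤ) ∣ ((c * g ^ e : ℕ) : ℤ) := by
      push_cast
      rcases hx with rfl | rfl
      · exact hpx
      · exact (dvd_neg).1 hpx
    have h2 : p ∣ c * g ^ e := by exact_mod_cast h1
    rw [mem_range]
    rcases (hp.dvd_mul).1 h2 with h3 | h3
    · have := Nat.le_of_dvd (Nat.pos_of_ne_zero hc0) h3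
      omega
    · have := Nat.le_of_dvd (Nat.pos_of_ne_zero hg0) (hp.dvd_of_dvd_pow h3)
      omega

lemma short_mul_pow {B g e k : ℕ} (hg : g ≤ B) (hg0 : g ≠ 0) {x : ℤ}
    (hx : ShortInt (range (B + 1)) k x) : ShortInt (range (B + 1)) k ((g : ℤ) ^ e * x) := by
  obtain ⟨s, hs, hsum⟩ := hx
  refine ⟨fun i => (g : ℤ) ^ e * s i, fun i => ?_, by rw [← Finset.mul_sum, hsum]⟩
  rcases hs i with h | h
  · left; simp [h]
  · right
    intro p hp hpd
    rcases (Nat.prime_iff_prime_int.1 hp).dvd_or_dvd hpd with h3 | h3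
    · have h4 : (p : ℤ) ∣ g := (Nat.prime_iff_prime_int.1 hp).dvd_of_dvd_pow h3
      have h5 : p ∣ g := by exact_mod_cast h4
      have := Nat.le_of_dvd (Nat.pos_of_ne_zero hg0) h5
      rw [Finset.mem_range]; omega
    · exact h p hp h3

lemma closed_comm {Q : Type} {g : ℕ} {δ : Q → ℕ → Q} {q : Q} (hq : ¬ Br g δ q) {w v : List ℕ}
    (hw : ∀ x ∈ w, x < g) (hv : ∀ x ∈ v, x < g) (hwq : w.foldl δ q = q) (hvq : v.foldl δ q = q) :
    w ++ v = v ++ w := by
  by_contra h
  refine hq ⟨w ++ v, v ++ w, h, by simp [add_comm], ?_, ?_, ?_, ?_⟩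
  · intro x hx
    rcases List.mem_append.1 hx with h1 | h1
    · exact hw x h1
    · exact hv x h1
  · intro x hx
    rcases List.mem_append.1 hx with h1 | h1
    · exact hv x h1
    · exact hw x h1
  · rw [List.foldl_append, hwq, hvq]
  · rw [List.foldl_append, hvq, hwq]

lemma closed_val {Q : Type} {g : ℕ} {δ : Q → ℕ → Q} {q : Q} (hq : ¬ Br g δ q) {w v : List ℕ}
    (hw : ∀ x ∈ w, x < g) (hv : ∀ x ∈ v, x < g) (hwq : w.foldl δ q = q) (hvq : v.foldl δ q = q) :
    ((g : ℤ) ^ v.length - 1) * (Nat.ofDigits g w : ℕ) =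
      (Nat.ofDigits g v : ℕ) * (g : ℤ) ^ w.length - (Nat.ofDigits g v : ℕ) := by
  have h1 := congrArg (Nat.ofDigits g) (closed_comm hq hw hv hwq hvq)
  rw [Nat.ofDigits_append, Nat.ofDigits_append] at h1
  have h2 : ((Nat.ofDigits g w : ℕ) : ℤ) + (g : ℤ) ^ w.length * (Nat.ofDigits g v : ℕ) =
      (Nat.ofDigits g v : ℕ) + (g : ℤ) ^ v.length * (Nat.ofDigits g w : ℕ) := by
    exact_mod_cast h1
  linarith

/-- **Sparse walks.** -/
lemma short_walk {g : ℕ} (hg : 2 ≤ g) {Q : Type} [DecidableEq Q] (δ : Q → ℕ → Q) (L : ℕ)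
    (hL : 0 < L) : ∀ (n : ℕ) (T : Finset Q), T.card = n →
    (∀ q ∈ T, ¬ Br g δ q ∧ ∀ w : List ℕ, w ≠ [] → (∀ x ∈ w, x < g) → w.foldl δ q = q →
      ∃ v : List ℕ, v ≠ [] ∧ (∀ x ∈ v, x < g) ∧ v.foldl δ q = q ∧ v.length ∣ L) →
    ∀ (q : Q) (ds : List ℕ), (∀ x ∈ ds, x < g) →
      (∀ i < ds.length, (ds.take i).foldl δ q ∈ T) →
      ShortInt (range (g ^ (2 * L + 1) + 1)) (3 * n)
        (((g : ℤ) ^ L - 1) * (Nat.ofDigits g ds : ℕ)) := by
  intro n
  induction n with
  | zero =>
    intro T hT _ q ds _ hds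
    rw [card_eq_zero] at hT
    have h1 : ds = [] := by
      by_contra h
      have h2 := hds 0 (List.length_pos_iff.2 h)
      rw [hT] at h2
      simp at h2
    rw [h1]
    simpa using ShortInt.zero _ _
  | succ n ih =>
    intro T hT hTg q ds hdg hds
    by_cases hd0 : ds = []
    · rw [hd0]
      simpa using ShortInt.zero _ _
    have hlen : 0 < ds.length := List.length_pos_iff.2 hd0
    have hqT : q ∈ T := by simpa using hds 0 hlen
    set s := (range ds.length).filter fun i => (ds.take i).foldl δ q = q with hs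
    have hsne : s.Nonempty := ⟨0, by rw [hs, mem_filter, mem_range]; exact ⟨hlen, by simp⟩⟩
    set b := s.max' hsne with hb
    have hbs : b ∈ s := s.max'_mem hsne
    rw [hs, mem_filter, mem_range] at hbs
    obtain ⟨hbl, hbq⟩ := hbs
    have hmax : ∀ j, b < j → j < ds.length → (ds.take j).foldl δ q ≠ q := by
      intro j hj hjl h
      have h1 : j ∈ s := by
        rw [hs, mem_filter, mem_range]
        exact ⟨hjl, h⟩
      have := s.le_max' j h1
      omega
    have hB1 : g ≤ g ^ (2 * L + 1) := by
      calc g = g ^ 1 := (pow_one g).symm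
        _ ≤ g ^ (2 * L + 1) := Nat.pow_le_pow_right (by omega) (by omega)
    have hdecomp : ds = ds.take b ++ ds[b] :: ds.drop (b + 1) := by
      rw [List.getElem_cons_drop, List.take_append_drop]
    have hval : ((Nat.ofDigits g ds : ℕ) : ℤ) = (Nat.ofDigits g (ds.take b) : ℕ) +
        (g : ℤ) ^ b * ds[b] + (g : ℤ) ^ (b + 1) * (Nat.ofDigits g (ds.drop (b + 1)) : ℕ) := by
      have h1 : Nat.ofDigits g ds = Nat.ofDigits g (ds.take b) +
          g ^ b * (ds[b] + g * Nat.ofDigits g (ds.drop (b + 1))) := by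
        conv_lhs => rw [hdecomp]
        rw [Nat.ofDigits_append, List.length_take, min_eq_left hbl.le, Nat.ofDigits_cons]
      rw [h1]
      push_cast
      ring
    -- the closed walk
    have hpart1 : ShortInt (range (g ^ (2 * L + 1) + 1)) 2
        (((g : ℤ) ^ L - 1) * (Nat.ofDigits g (ds.take b) : ℕ)) := by
      by_cases hb0 : ds.take b = []
      · rw [hb0]
        simpa using ShortInt.zero _ _
      have hdb : ∀ x ∈ ds.take b, x < g := fun x hx => hdg x (List.mem_of_mem_take hx)
      obtain ⟨v, hv0, hvg, hvq, r, hr⟩ := (hTg q hqT).2 _ hb0 hdb hbq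
      have h1 := closed_val (hTg q hqT).1 hdb hvg hbq hvq
      set K : ℕ := ∑ i ∈ range r, (g ^ v.length) ^ i with hK
      have h2 : (K : ℤ) * ((g : ℤ) ^ v.length - 1) = (g : ℤ) ^ L - 1 := by
        rw [hK, hr, pow_mul]
        push_cast
        exact geom_sum_mul _ _
      have hvl : 0 < v.length := List.length_pos_iff.2 hv0
      have hvL : v.length ≤ L := Nat.le_of_dvd hL ⟨r, hr⟩
      have hval : Nat.ofDigits g v ≤ g ^ L :=
        (Nat.ofDigits_lt_base_pow_length (by omega) hvg).le.trans (Nat.pow_le_pow_right (by omega) hvL)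
      have hKL : K ≤ g ^ L := by
        have h3 : (2 : ℤ) ≤ (g : ℤ) ^ v.length := by
          have : 2 ^ 1 ≤ g ^ v.length :=
            (Nat.pow_le_pow_left hg 1).trans (Nat.pow_le_pow_right (by omega) hvl)
          exact_mod_cast this
        have h4 : (K : ℤ) ≤ (g : ℤ) ^ L := by nlinarith [Int.natCast_nonneg K]
        exact_mod_cast h4
      have h3 : K * Nat.ofDigits g v ≤ g ^ (2 * L + 1) := by
        calc K * Nat.ofDigits g v ≤ g ^ L * g ^ L := Nat.mul_le_mul hKL hval
          _ = g ^ (2 * L) := by rw [← pow_add, two_mul]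
          _ ≤ g ^ (2 * L + 1) := Nat.pow_le_pow_right (by omega) (by omega)
      have h4 : ((g : ℤ) ^ L - 1) * (Nat.ofDigits g (ds.take b) : ℕ) =
          (((K * Nat.ofDigits g v : ℕ) : ℤ) * (g : ℤ) ^ (ds.take b).length) +
            (-(((K * Nat.ofDigits g v : ℕ) : ℤ) * (g : ℤ) ^ 0)) := by
        rw [← h2, mul_assoc, h1]
        push_cast
        ring
      rw [h4]
      exact (short1 h3 hB1 (by omega) _ (Or.inl rfl)).add (short1 h3 hB1 (by omega) _ (Or.inr rfl))
    have hpart2 : ShortInt (range (g ^ (2 * L + 1) + 1)) 1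
        (((g : ℤ) ^ L - 1) * ((g : ℤ) ^ b * ds[b])) := by
      have hx : ds[b] < g := hdg _ (List.getElem_mem _)
      have h3 : (g ^ L - 1) * ds[b] ≤ g ^ (2 * L + 1) := by
        calc (g ^ L - 1) * ds[b] ≤ g ^ L * g := Nat.mul_le_mul (Nat.sub_le _ _) hx.le
          _ = g ^ (L + 1) := (pow_succ g L).symm
          _ ≤ g ^ (2 * L + 1) := Nat.pow_le_pow_right (by omega) (by omega)
      refine short1 h3 hB1 (by omega) _ (Or.inl ?_) (e := b)
      have h4 : (((g ^ L - 1 : ℕ)) : ℤ) = (g : ℤ) ^ L - 1 := by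
        rw [Nat.cast_sub (Nat.one_le_pow _ _ (by omega))]
        push_cast
        ring
      rw [Nat.cast_mul, h4]
      ring
    have hpart3 : ShortInt (range (g ^ (2 * L + 1) + 1)) (3 * n)
        ((g : ℤ) ^ (b + 1) * (((g : ℤ) ^ L - 1) * (Nat.ofDigits g (ds.drop (b + 1)) : ℕ))) := by
      refine short_mul_pow hB1 (by omega) ?_
      refine ih (T.erase q) (by rw [card_erase_of_mem hqT, hT]; rfl)
        (fun q' hq' => hTg q' (mem_of_mem_erase hq')) ((ds.take (b + 1)).foldl δ q) _
        (fun x hx => hdg x (List.mem_of_mem_drop hx)) ?_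
      intro i hi
      rw [List.length_drop] at hi
      have h1 : ((ds.drop (b + 1)).take i).foldl δ ((ds.take (b + 1)).foldl δ q) =
          (ds.take (b + 1 + i)).foldl δ q := by
        rw [← List.foldl_append, ← List.take_add]
      rw [h1, mem_erase]
      exact ⟨hmax _ (by omega) (by omega), hds _ (by omega)⟩
    have h5 : ((g : ℤ) ^ L - 1) * (Nat.ofDigits g ds : ℕ) =
        ((g : ℤ) ^ L - 1) * (Nat.ofDigits g (ds.take b) : ℕ) +
        ((g : ℤ) ^ L - 1) * ((g : ℤ) ^ b * ds[b]) +
        (g : ℤ) ^ (b + 1) * (((g : ℤ) ^ L - 1) * (Nat.ofDigits g (ds.drop (b + 1)) : ℕ)) := by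
      rw [hval]
      ring
    rw [h5]
    have h6 := (hpart1.add hpart2).add hpart3
    have h7 : 2 + 1 + 3 * n = 3 * (n + 1) := by ring
    rwa [h7] at h6

/-- blocks -/
def flat (v v' : List ℕ) (l : List Bool) : List ℕ := l.flatMap fun b => if b then v else v'

lemma flat_cons (v v' : List ℕ) (b : Bool) (l : List Bool) :
    flat v v' (b :: l) = (if b then v else v') ++ flat v v' l := rfl

lemma flat_len {v v' : List ℕ} (h : v.length = v'.length) (l : List Bool) :
    (flat v v' l).length = l.length * v.length := by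
  induction l with
  | nil => simp [flat]
  | cons b l ih =>
    rw [flat_cons, List.length_append, ih, List.length_cons]
    cases b
    · simp [h]; ring
    · simp; ring

lemma flat_inj {v v' : List ℕ} (h : v.length = v'.length) (hne : v ≠ v') :
    ∀ l l' : List Bool, l.length = l'.length → flat v v' l = flat v v' l' → l = l' := by
  intro l
  induction l with
  | nil =>
    intro l' hl _
    cases l' with
    | nil => rfl
    | cons a l' => simp at hl
  | cons a l ih =>
    intro l' hl hf
    cases l' with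
    | nil => simp at hl
    | cons a' l' =>
      rw [flat_cons, flat_cons] at hf
      have h1 : (if a then v else v').length = (if a' then v else v').length := by
        cases a <;> cases a' <;> simp [h]
      obtain ⟨h2, h3⟩ := List.append_inj hf h1
      have h4 : a = a' := by
        cases a <;> cases a' <;> simp at h2 ⊢
        · exact hne h2.symm
        · exact hne h2
      rw [h4, ih l' (by simpa using hl) h3]

lemma flat_walk {Q : Type} {δ : Q → ℕ → Q} {q : Q} {v v' : List ℕ} (hv : v.foldl δ q = q)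
    (hv' : v'.foldl δ q = q) (l : List Bool) : (flat v v' l).foldl δ q = q := by
  induction l with
  | nil => rfl
  | cons b l ih =>
    rw [flat_cons, List.foldl_append]
    cases b
    · simp [hv', ih]
    · simp [hv, ih]

lemma flat_lt {g : ℕ} {v v' : List ℕ} (hv : ∀ x ∈ v, x < g) (hv' : ∀ x ∈ v', x < g)
    (l : List Bool) : ∀ x ∈ flat v v' l, x < g := by
  intro x hx
  unfold flat at hx
  rw [List.mem_flatMap] at hx
  obtain ⟨b, -, hx⟩ := hx
  cases b
  · exact hv' x (by simpa using hx)
  · exact hv x (by simpa using hx)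

open scoped Classical in
/-- **Branching gives many elements.** -/
lemma many {g : ℕ} (hg : 2 ≤ g) {Q : Type} (δ : Q → ℕ → Q) (q₀ : Q) (F : Set Q) (S : Set ℕ)
    (hS : ∀ n, n ∈ S ↔ (Nat.digits g n).foldl δ q₀ ∈ F) {n i : ℕ} (hn : n ∈ S)
    (hi : i < (Nat.digits g n).length) (hbr : Br g δ (((Nat.digits g n).take i).foldl δ q₀)) :
    ∃ a l : ℕ, 0 < l ∧ ∀ j : ℕ, 2 ^ j ≤ ((range (g ^ (a + j * l))).filter fun x => x ∈ S).card := by
  obtain ⟨v, v', hne, hlen, hv, hv', hvq, hvq'⟩ := hbr
  set ds := Nat.digits g n with hds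
  set u := ds.take i with hu
  set z := ds.drop i with hz
  have hn0 : n ≠ 0 := by
    rintro rfl
    rw [hds, Nat.digits_zero] at hi
    simp at hi
  have hz0 : z ≠ [] := by
    rw [hz]
    intro h
    rw [List.drop_eq_nil_iff] at h
    omega
  have hdg : ∀ x ∈ ds, x < g := fun x hx => Nat.digits_lt_base (by omega) hx
  have huz : u ++ z = ds := List.take_append_drop i ds
  have hlast : z.getLast hz0 ≠ 0 := by
    have h1 : ds ≠ [] := Nat.digits_ne_nil_iff_ne_zero.2 hn0
    have h2 : ds.getLast h1 = z.getLast hz0 := by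
      have h3 : ds.getLast h1 = (u ++ z).getLast (by rw [huz]; exact h1) := by
        congr 1
        exact huz.symm
      rw [h3, List.getLast_append_of_ne_nil _ hz0]
    rw [← h2]
    exact Nat.getLast_digit_ne_zero g hn0
  refine ⟨u.length + z.length, v.length, ?_, fun j => ?_⟩
  · rw [List.length_pos_iff]
    intro h
    rw [h, List.length_nil] at hlen
    exact hne (by rw [h, List.length_eq_zero_iff.1 hlen.symm])
  · have hwd : ∀ s : Fin j → Bool, Nat.digits g (Nat.ofDigits g (u ++ flat v v' (List.ofFn s) ++ z)) =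
        u ++ flat v v' (List.ofFn s) ++ z := by
      intro s
      refine Nat.digits_ofDigits g (by omega) _ ?_ ?_
      · intro x hx
        rw [List.mem_append, List.mem_append] at hx
        rcases hx with (hx | hx) | hx
        · exact hdg x (List.mem_of_mem_take hx)
        · exact flat_lt hv hv' _ x hx
        · exact hdg x (List.mem_of_mem_drop hx)
      · intro h
        rw [List.getLast_append_of_ne_nil _ hz0]
        exact hlast
    have h1 : (univ : Finset (Fin j → Bool)).card ≤
        ((range (g ^ (u.length + z.length + j * v.length))).filter fun x => x ∈ S).card := by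
      refine card_le_card_of_injOn
        (fun s => Nat.ofDigits g (u ++ flat v v' (List.ofFn s) ++ z)) ?_ ?_
      · intro s _
        rw [mem_coe, mem_filter, mem_range]
        constructor
        · have h2 := Nat.ofDigits_lt_base_pow_length (b := g)
            (l := u ++ flat v v' (List.ofFn s) ++ z) (by omega) (by
              rw [← hwd s]
              exact fun x hx => Nat.digits_lt_base (by omega) hx)
          refine lt_of_lt_of_le h2 (le_of_eq ?_)
          congr 1
          rw [List.length_append, List.length_append, flat_len hlen, List.length_ofFn]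
          ring
        · rw [hS, hwd s, List.foldl_append, List.foldl_append, flat_walk hvq hvq', ←
            List.foldl_append, huz]
          exact (hS n).1 hn
      · intro s _ s' _ hss
        dsimp only at hss
        have h2 : u ++ flat v v' (List.ofFn s) ++ z = u ++ flat v v' (List.ofFn s') ++ z := by
          rw [← hwd s, ← hwd s', hss]
        have h3 : flat v v' (List.ofFn s) = flat v v' (List.ofFn s') := by
          rw [List.append_assoc, List.append_assoc] at h2
          exact List.append_cancel_right (List.append_cancel_left h2)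
        exact List.ofFn_injective (flat_inj hlen hne _ _ (by simp) h3)
    rw [card_univ, Fintype.card_fun, Fintype.card_bool, Fintype.card_fin] at h1
    exact h1

end Pool.Agent.T3h26.AS
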