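import Mathlib
import Pool.Agent.T3h26.AS.Main
import Pool.Agent.T3h26.AS.Walk

/-!
# Initial segments of automatic sets
-/

set_option autoImplicit false

namespace Pool.Agent.T3h26.AS

open Finset Pool.Agent.Y359.PE Pool.Agent.R849.SV Pool.Agent.N449.SP
open scoped Classical

/-- The set `S` is recognised by a finite automaton that reads the digits in base `g`, the least
significant digit first. -/
def IsAutomatic (g : ℕ) (S : Set ℕ) : Prop :=
  ∃ (Q : Type) (_ : Finite Q) (δ : Q → ℕ → Q) (q₀ : Q) (F : Set Q),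
    ∀ n, n ∈ S ↔ (Nat.digits g n).foldl δ q₀ ∈ F

/-- the elements of `S` below `N` -/
noncomputable def seg (S : Set ℕ) (N : ℕ) : Finset ℕ := (range N).filter fun x => x ∈ S

lemma lt_iff_div {G N a b : ℕ} (ha : a < G) :
    a + G * b < N ↔ b < N / G ∨ (b = N / G ∧ a < N % G) := by
  have hG : 0 < G := by omega
  have h1 := Nat.mod_add_div N G
  have h2 := Nat.mod_lt N hG
  rcases lt_trichotomy b (N / G) with h | h | h
  · constructor
    · intro _
      exact Or.inl h
    · intro _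
      have h3 : G * (b + 1) ≤ G * (N / G) := Nat.mul_le_mul_left _ h
      have h4 : G * (b + 1) = G * b + G := by ring
      omega
  · subst h
    constructor
    · intro h3
      exact Or.inr ⟨rfl, by omega⟩
    · rintro (h3 | h3)
      · omega
      · omega
  · constructor
    · intro h3
      exfalso
      have h4 : G * (N / G + 1) ≤ G * b := Nat.mul_le_mul_left _ h
      have h5 : G * (N / G + 1) = G * (N / G) + G := by ring
      omega
    · rintro (h3 | h3) <;> omega

section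
variable {g : ℕ} {Q : Type} (δ : Q → ℕ → Q) (q₀ : Q)

/-- the state after reading `i` digits -/
def st (g : ℕ) (i a : ℕ) : Q :=
  (Nat.digits g a ++ List.replicate (i - (Nat.digits g a).length) 0).foldl δ q₀

lemma st_spec (hg : 2 ≤ g) {i a b : ℕ} (ha : a < g ^ i) (hb : 0 < b) :
    (Nat.digits g (a + g ^ i * b)).foldl δ q₀ = (Nat.digits g b).foldl δ (st δ q₀ g i a) := by
  have hlen : (Nat.digits g a).length ≤ i := by
    rcases Nat.eq_zero_or_pos a with h | h
    · rw [h]; simp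
    · rw [Nat.digits_length_le_iff (by omega)]
      exact ha
  have h1 := Nat.digits_append_zeroes_append_digits (b := g) (k := i - (Nat.digits g a).length)
    (m := b) (n := a) (by omega) hb
  have h2 : (Nat.digits g a).length + (i - (Nat.digits g a).length) = i := by omega
  rw [h2] at h1
  rw [← h1, List.foldl_append]
  rfl

lemma width_seg [Finite Q] (hg : 2 ≤ g) (F : Set Q) (S : Set ℕ)
    (hS : ∀ n, n ∈ S ↔ (Nat.digits g n).foldl δ q₀ ∈ F) (N : ℕ) :
    Width g (Nat.card (Q × Bool × Bool)) (seg S N) := by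
  intro i
  let e := Finite.equivFin (Q × Bool × Bool)
  refine ⟨fun a => e (st δ q₀ g i a, decide ((Nat.digits g a).foldl δ q₀ ∈ F),
    decide (a < N % g ^ i)), ?_⟩
  intro a ha a' ha' haa b
  have h1 := e.injective haa
  rw [Prod.mk.injEq, Prod.mk.injEq, decide_eq_decide, decide_eq_decide] at h1
  obtain ⟨h1, h2, h3⟩ := h1
  have h4 : a + g ^ i * b < N ↔ a' + g ^ i * b < N := by
    rw [lt_iff_div ha, lt_iff_div ha', h3]
  have h5 : a + g ^ i * b ∈ S ↔ a' + g ^ i * b ∈ S := by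
    rcases Nat.eq_zero_or_pos b with h | h
    · rw [h, mul_zero, add_zero, add_zero, hS, hS]
      exact h2
    · rw [hS, hS, st_spec δ q₀ hg ha h, st_spec δ q₀ hg ha' h, h1]
  unfold seg
  rw [mem_filter, mem_filter, mem_range, mem_range, h4, h5]

end

lemma seg_mono (S : Set ℕ) {N N' : ℕ} (h : N ≤ N') : seg S N ⊆ seg S N' := by
  intro x hx
  unfold seg at hx ⊢
  rw [mem_filter, mem_range] at hx ⊢
  exact ⟨by omega, hx.2⟩

/-- lower bound for the number of elements -/
lemma dense_bound {g : ℕ} (hg : 2 ≤ g) (S : Set ℕ) {a l : ℕ} (hl : 0 < l)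
    (h : ∀ j : ℕ, 2 ^ j ≤ ((range (g ^ (a + j * l))).filter fun x => x ∈ S).card) :
    ∃ θ : ℝ, 0 < θ ∧ ∃ m1 : ℕ, ∀ m ≥ m1, ∀ N ≥ g ^ m, N < g ^ (m + 1) →
      (g : ℝ) ^ (θ * ((m + 1 : ℕ) : ℝ)) ≤ (seg S N).card := by
  have hgr : (2 : ℝ) ≤ g := by exact_mod_cast hg
  have hg0 : (0 : ℝ) < g := by linarith
  have hlg : 0 < Real.log g := Real.log_pos (by linarith)
  have hl2 : 0 < Real.log 2 := Real.log_pos (by norm_num)
  have hlr : (0 : ℝ) < l := by exact_mod_cast hl
  refine ⟨Real.log 2 / (2 * l * Real.log g), by positivity, 2 * a + 2 * l + 1, ?_⟩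
  intro m hm N hN _
  set j := (m - a) / l with hj
  have h1 : a + j * l ≤ m := by
    have h0 : j * l ≤ m - a := Nat.div_mul_le_self (m - a) l
    omega
  have h2 : 2 ^ j ≤ (seg S N).card := by
    refine (h j).trans (card_le_card ?_)
    have h3 := seg_mono S ((Nat.pow_le_pow_right (by omega) h1).trans hN)
    exact h3
  have h3 : ((m + 1 : ℕ) : ℝ) ≤ 2 * l * j := by
    have h4 : m - a < (j + 1) * l := by
      have := Nat.lt_div_mul_add hl (a := m - a)
      rw [← hj] at this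
      rw [Nat.succ_mul]
      exact this
    have h5 : m + 1 ≤ 2 * l * j := by
      have h6 : (j + 1) * l = l * j + l := by ring
      have h7 : 2 * l * j = 2 * (l * j) := by ring
      omega
    exact_mod_cast h5
  have h4 : (g : ℝ) ^ (Real.log 2 / (2 * l * Real.log g) * ((m + 1 : ℕ) : ℝ)) ≤ (2 : ℝ) ^ j := by
    have h5 : (2 : ℝ) ^ j = Real.exp (Real.log 2 * j) := by
      rw [Real.exp_mul, Real.exp_log (by norm_num), Real.rpow_natCast]
    rw [h5, Real.rpow_def_of_pos hg0]
    refine Real.exp_le_exp.2 ?_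
    have h6 : Real.log g * (Real.log 2 / (2 * l * Real.log g) * ((m + 1 : ℕ) : ℝ)) =
        Real.log 2 * (((m + 1 : ℕ) : ℝ) / (2 * l)) := by
      field_simp
    rw [h6]
    refine mul_le_mul_of_nonneg_left ?_ hl2.le
    rw [div_le_iff₀ (by positivity)]
    linarith
  exact h4.trans (by exact_mod_cast h2)

/-- **Products: automatic sets that are not sparse.** -/
theorem dense_case {g : ℕ} (hg : 2 ≤ g) {Q : Type} [Finite Q] (δ : Q → ℕ → Q) (q₀ : Q) (F : Set Q)
    (S : Set ℕ) (hS : ∀ n, n ∈ S ↔ (Nat.digits g n).foldl δ q₀ ∈ F) {n i : ℕ} (hn : n ∈ S)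
    (hi : i < (Nat.digits g n).length) (hbr : Br g δ (((Nat.digits g n).take i).foldl δ q₀))
    (k : ℕ) (hk : 1 ≤ k) (ε : ℝ) (hε : 0 < ε) (hε1 : ε ≤ 1) (d : ℕ) (K : ℝ) (hK : 1 ≤ K) :
    ∃ c : ℝ, 0 < c ∧ ∀ N : ℕ, ∀ B ⊆ seg S N, ((seg S N).card : ℝ) ≤ K * B.card →
      ∀ f : Polynomial ℤ, 1 ≤ f.natDegree → f.natDegree ≤ d →
      (vals f (B.image fun x : ℕ => (x : ℤ))).Nonempty →
      c * (B.card : ℝ) ^ ((k : ℝ) - ε) ≤ (pk k (vals f (B.image fun x : ℕ => (x : ℤ)))).card := by
  obtain ⟨a, l, hl, hmany⟩ := many hg δ q₀ F S hS hn hi hbr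
  obtain ⟨θ, hθ, m1, hθm⟩ := dense_bound hg S hl hmany
  obtain ⟨c, hc, hw⟩ := wide k hk ε hε hε1 d g (Nat.card (Q × Bool × Bool)) hg θ K hθ hK
  have hkr : (1 : ℝ) ≤ k := by exact_mod_cast hk
  have hgr : (2 : ℝ) ≤ g := by exact_mod_cast hg
  have hg0 : (0 : ℝ) < g := by linarith
  refine ⟨min c (1 / ((g : ℝ) ^ (m1 + 1)) ^ (k : ℝ)), by positivity, ?_⟩
  intro N B hB hBK f hf hfd hV
  have hBne : 0 < B.card := by
    obtain ⟨a, ha⟩ := hV
    unfold vals at ha
    rw [mem_erase, mem_image] at ha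
    obtain ⟨-, x, hx, -⟩ := ha
    rw [mem_image] at hx
    obtain ⟨y, hy, -⟩ := hx
    exact card_pos.2 ⟨y, hy⟩
  have hB1 : (1 : ℝ) ≤ B.card := by exact_mod_cast hBne
  have hpk1 : (1 : ℝ) ≤ (pk k (vals f (B.image fun x : ℕ => (x : ℤ)))).card := by
    exact_mod_cast card_pos.2 (pk_nonempty hV)
  rcases lt_or_ge N (g ^ m1) with h | h
  · have h1 : (B.card : ℝ) ≤ (g : ℝ) ^ (m1 + 1) := by
      have h2 : B.card ≤ (range (g ^ (m1 + 1))).card := by
        refine card_le_card fun x hx => ?_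
        have h3 := hB hx
        unfold seg at h3
        rw [mem_filter, mem_range] at h3
        rw [mem_range]
        exact (h3.1.trans h).trans_le (Nat.pow_le_pow_right (by omega) (by omega))
      rw [card_range] at h2
      exact_mod_cast h2
    have h2 : (B.card : ℝ) ^ ((k : ℝ) - ε) ≤ ((g : ℝ) ^ (m1 + 1)) ^ (k : ℝ) :=
      (Real.rpow_le_rpow_of_exponent_le hB1 (by linarith)).trans
        (Real.rpow_le_rpow (by linarith) h1 (by linarith))
    refine le_trans ?_ hpk1
    calc _ ≤ 1 / ((g : ℝ) ^ (m1 + 1)) ^ (k : ℝ) * (B.card : ℝ) ^ ((k : ℝ) - ε) :=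
          mul_le_mul_of_nonneg_right (min_le_right _ _) (by positivity)
      _ ≤ 1 := by
        rw [one_div, ← div_eq_inv_mul, div_le_one (by positivity)]
        exact h2
  · set m := Nat.log g N with hm
    have hN0 : N ≠ 0 := by
      have := pow_pos (by omega : 0 < g) m1
      omega
    have h1 : g ^ m ≤ N := Nat.pow_log_le_self g hN0
    have h2 : N < g ^ (m + 1) := Nat.lt_pow_succ_log_self (by omega) N
    have h3 : m1 ≤ m := Nat.le_log_of_pow_le (by omega) h
    have h4 := hw (m + 1) (seg S N) (by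
      intro x hx
      unfold seg at hx
      rw [mem_filter, mem_range] at hx
      omega) (width_seg δ q₀ hg F S hS N) (hθm m h3 N h1 h2) B hB hBK f hf hfd hV
    exact (mul_le_mul_of_nonneg_right (min_le_left _ _) (by positivity)).trans h4

/-- **Sums: sparse automatic sets.** -/
theorem sparse_short {g : ℕ} (hg : 2 ≤ g) {Q : Type} [Finite Q] (δ : Q → ℕ → Q) (q₀ : Q)
    (F : Set Q) (S : Set ℕ) (hS : ∀ n, n ∈ S ↔ (Nat.digits g n).foldl δ q₀ ∈ F)
    (h : ∀ n ∈ S, ∀ i < (Nat.digits g n).length, ¬ Br g δ (((Nat.digits g n).take i).foldl δ q₀)) :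
    ∃ L R : ℕ, 0 < L ∧ ∀ n ∈ S,
      ShortInt (range (g ^ (2 * L + 1) + 1)) R (((g : ℤ) ^ L - 1) * n) := by
  have : Fintype Q := Fintype.ofFinite Q
  let P : Q → List ℕ → Prop := fun q v => v ≠ [] ∧ (∀ x ∈ v, x < g) ∧ v.foldl δ q = q
  let len : Q → ℕ := fun q => if hq : ∃ v, P q v then (hq.choose).length else 1
  have hlen : ∀ q, 0 < len q := by
    intro q
    by_cases hq : ∃ v, P q v
    · show 0 < dite _ _ _
      rw [dif_pos hq]
      exact List.length_pos_iff.2 hq.choose_spec.1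
    · show 0 < dite _ _ _
      rw [dif_neg hq]
      exact one_pos
  set L := ∏ q, len q with hL
  have hL0 : 0 < L := prod_pos fun q _ => hlen q
  set T : Finset Q := univ.filter fun q => ¬ Br g δ q with hT
  refine ⟨L, 3 * T.card, hL0, fun n hn => ?_⟩
  have h1 := short_walk hg δ L hL0 T.card T rfl (by
    intro q hq
    refine ⟨(mem_filter.1 hq).2, ?_⟩
    intro w hw0 hwg hwq
    have hq2 : ∃ v, P q v := ⟨w, hw0, hwg, hwq⟩
    refine ⟨hq2.choose, hq2.choose_spec.1, hq2.choose_spec.2.1, hq2.choose_spec.2.2, ?_⟩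
    have h2 : len q = hq2.choose.length := by
      show dite _ _ _ = _
      rw [dif_pos hq2]
    rw [← h2, hL]
    exact dvd_prod_of_mem _ (mem_univ q)) q₀ (Nat.digits g n)
    (fun x hx => Nat.digits_lt_base (by omega) hx) (by
    intro i hi
    rw [hT, mem_filter]
    exact ⟨mem_univ _, h n hn i hi⟩)
  rwa [Nat.ofDigits_digits] at h1

end Pool.Agent.T3h26.AS
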