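import Mathlib
import Pool.Agent.T3h26.AS.Auto

/-!
# The k-fold conjecture for polynomial values on initial segments of automatic sets
-/

set_option autoImplicit false

namespace Pool.Agent.T3h26.AS

open Finset Pool.Agent.Y359.PE Pool.Agent.R849.SV Pool.Agent.N449.SP
open scoped Classical Pointwise

lemma short_mono {S S' : Finset ℕ} (h : S ⊆ S') {k : ℕ} {x : ℤ} (hx : ShortInt S k x) :
    ShortInt S' k x := by
  obtain ⟨s, hs, hsum⟩ := hx
  refine ⟨s, fun i => ?_, hsum⟩
  rcases hs i with h1 | h1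
  · exact Or.inl h1
  · exact Or.inr fun p hp hpd => h (h1 p hp hpd)

lemma short_mul {S : Finset ℕ} {a b : ℕ} {x y : ℤ} (hx : ShortInt S a x) (hy : ShortInt S b y) :
    ShortInt S (a * b) (x * y) := by
  obtain ⟨s, hs, rfl⟩ := hx
  obtain ⟨t, ht, rfl⟩ := hy
  refine ⟨fun i => s (finProdFinEquiv.symm i).1 * t (finProdFinEquiv.symm i).2, fun i => ?_, ?_⟩
  · rcases hs (finProdFinEquiv.symm i).1 with h1 | h1
    · left; dsimp only; rw [h1, zero_mul]
    · rcases ht (finProdFinEquiv.symm i).2 with h2 | h2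
      · left; dsimp only; rw [h2, mul_zero]
      · right
        intro p hp hpd
        rcases (Nat.prime_iff_prime_int.1 hp).dvd_or_dvd hpd with h3 | h3
        · exact h1 p hp h3
        · exact h2 p hp h3
  · rw [Fintype.sum_equiv finProdFinEquiv.symm _ (fun p : Fin a × Fin b => s p.1 * t p.2)
      (fun i => rfl), Fintype.sum_prod_type, sum_mul]
    refine sum_congr rfl fun i _ => ?_
    rw [mul_sum]

lemma short_pow {S : Finset ℕ} {a : ℕ} {x : ℤ} (hx : ShortInt S a x) (e : ℕ) :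
    ShortInt S (a ^ e) (x ^ e) := by
  induction e with
  | zero =>
    rw [pow_zero, pow_zero]
    refine ⟨fun _ => 1, fun _ => Or.inr ?_, by simp⟩
    intro p hp hpd
    have h0 : (p : ℤ) ∣ 1 := hpd
    have h1 : p ∣ 1 := by exact_mod_cast h0
    exact absurd (Nat.dvd_one.1 h1) hp.one_lt.ne'
  | succ e ih =>
    rw [pow_succ, pow_succ]
    exact short_mul ih hx

lemma short_const {B : ℕ} {c : ℤ} (hc : c.natAbs ≤ B) : ShortInt (range (B + 1)) 1 c := by
  refine ⟨fun _ => c, fun _ => ?_, by simp⟩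
  by_cases h0 : c = 0
  · exact Or.inl h0
  · right
    intro p hp hpd
    have h1 : p ∣ c.natAbs := Int.natCast_dvd.1 hpd
    have := Nat.le_of_dvd (Int.natAbs_pos.2 h0) h1
    rw [mem_range]
    omega

lemma short_sum {S : Finset ℕ} {ι : Type} (s : Finset ι) (r : ι → ℕ) (x : ι → ℤ)
    (h : ∀ i ∈ s, ShortInt S (r i) (x i)) : ShortInt S (∑ i ∈ s, r i) (∑ i ∈ s, x i) := by
  induction s using Finset.induction_on with
  | empty =>
    rw [sum_empty, sum_empty]
    exact ShortInt.zero _ _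
  | insert i s hi ih =>
    rw [sum_insert hi, sum_insert hi]
    exact (h i (mem_insert_self _ _)).add (ih fun j hj => h j (mem_insert_of_mem hj))

/-- values of a polynomial -/
lemma short_eval (f : Polynomial ℤ) (D : ℤ) (B R : ℕ) : ∃ B' R' : ℕ, ∀ n : ℤ,
    ShortInt (range (B + 1)) R (D * n) →
      ShortInt (range (B' + 1)) R' (D ^ f.natDegree * f.eval n) := by
  set d := f.natDegree with hd
  set co : ℕ → ℤ := fun i => f.coeff i * D ^ (d - i) with hco
  set B' := B + ∑ i ∈ range (d + 1), (co i).natAbs with hB'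
  refine ⟨B', ∑ i ∈ range (d + 1), 1 * R ^ i, fun n hn => ?_⟩
  have h1 : D ^ d * f.eval n = ∑ i ∈ range (d + 1), co i * (D * n) ^ i := by
    rw [Polynomial.eval_eq_sum_range, mul_sum]
    refine sum_congr rfl fun i hi => ?_
    rw [mem_range] at hi
    have h2 : D ^ d = D ^ (d - i) * D ^ i := by
      rw [← pow_add]
      congr 1
      omega
    rw [hco, h2, mul_pow]
    ring
  rw [h1]
  refine short_sum _ _ _ fun i hi => ?_
  refine short_mul (short_const ?_) (short_pow (short_mono ?_ hn) i)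
  · have := single_le_sum (f := fun i => (co i).natAbs) (fun _ _ => Nat.zero_le _) hi
    omega
  · exact range_subset_range.2 (by omega)

lemma mem_sum_fin {k : ℕ} (A : Fin k → Finset ℤ) {x : ℤ} (hx : x ∈ ∑ i, A i) :
    ∃ s : Fin k → ℤ, (∀ i, s i ∈ A i) ∧ ∑ i, s i = x := by
  induction k generalizing x with
  | zero =>
    rw [Fin.sum_univ_zero] at hx
    refine ⟨fun i => i.elim0, fun i => i.elim0, ?_⟩
    rw [Fin.sum_univ_zero]
    exact (Finset.mem_zero.1 hx).symm
  | succ k ih =>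
    rw [Fin.sum_univ_succ, mem_add] at hx
    obtain ⟨y, hy, z, hz, rfl⟩ := hx
    obtain ⟨s, hs, rfl⟩ := ih (fun i => A i.succ) hz
    refine ⟨Fin.cons y s, fun i => ?_, by rw [Fin.sum_univ_succ]; simp⟩
    refine Fin.cases ?_ (fun i => ?_) i
    · simpa using hy
    · simpa using hs i

/-- sums of elements which are short up to a factor -/
lemma sums_large (S : Finset ℕ) (R k : ℕ) : ∃ C : ℕ, ∀ (D : ℤ), D ≠ 0 → ∀ A : Finset ℤ,
    (∀ a ∈ A, ShortInt S R (D * a)) → A.card ^ k ≤ C * (sk k A).card := by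
  obtain ⟨C, hC⟩ := h_sets_int S R k
  refine ⟨C, fun D hD A hA => ?_⟩
  have hinj : Function.Injective fun a : ℤ => D * a := mul_right_injective₀ hD
  have h1 := hC (fun _ => A.image fun a => D * a) (by
    intro i a ha
    rw [mem_image] at ha
    obtain ⟨b, hb, rfl⟩ := ha
    exact hA b hb)
  have h2 : ∏ _i : Fin k, (A.image fun a => D * a).card = A.card ^ k := by
    rw [prod_const, card_univ, Fintype.card_fin, card_image_of_injective _ hinj]
  rw [h2] at h1
  refine h1.trans (Nat.mul_le_mul_left _ ?_)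
  have h3 : (∑ _i : Fin k, A.image fun a => D * a) ⊆ (sk k A).image fun a => D * a := by
    intro x hx
    obtain ⟨s, hs, rfl⟩ := mem_sum_fin _ hx
    have h4 : ∀ i, ∃ b ∈ A, D * b = s i := fun i => by
      have := hs i
      rw [mem_image] at this
      exact this
    choose b hb hbs using h4
    rw [mem_image]
    refine ⟨∑ i, b i, ?_, ?_⟩
    · unfold sk
      rw [mem_image]
      exact ⟨b, Fintype.mem_piFinset.2 hb, rfl⟩
    · rw [mul_sum]
      exact sum_congr rfl fun i _ => hbs i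
  exact (card_le_card h3).trans card_image_le

/-- **Dichotomy.** -/
theorem dichotomy (g : ℕ) (hg : 2 ≤ g) (S : Set ℕ) (hS : IsAutomatic g S) :
    (∀ f : Polynomial ℤ, ∀ k : ℕ, ∃ C : ℕ, ∀ A : Finset ℤ,
      (∀ a ∈ A, ∃ n ∈ S, a = f.eval (n : ℤ)) → A.card ^ k ≤ C * (sk k A).card) ∨
    (∀ (k : ℕ), 1 ≤ k → ∀ (ε : ℝ), 0 < ε → ε ≤ 1 → ∀ (d : ℕ) (K : ℝ), 1 ≤ K →
      ∃ c : ℝ, 0 < c ∧ ∀ N : ℕ, ∀ B ⊆ seg S N, ((seg S N).card : ℝ) ≤ K * B.card →
      ∀ f : Polynomial ℤ, 1 ≤ f.natDegree → f.natDegree ≤ d →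
      (vals f (B.image fun x : ℕ => (x : ℤ))).Nonempty →
      c * (B.card : ℝ) ^ ((k : ℝ) - ε) ≤
        (pk k (vals f (B.image fun x : ℕ => (x : ℤ)))).card) := by
  obtain ⟨Q, hQ, δ, q₀, F, hF⟩ := hS
  by_cases hbr : ∃ n ∈ S, ∃ i < (Nat.digits g n).length,
      Br g δ (((Nat.digits g n).take i).foldl δ q₀)
  · right
    obtain ⟨n, hn, i, hi, hbr⟩ := hbr
    intro k hk ε hε hε1 d K hK
    exact dense_case hg δ q₀ F S hF hn hi hbr k hk ε hε hε1 d K hK
  · left
    push Not at hbr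
    obtain ⟨L, R, hL, h⟩ := sparse_short hg δ q₀ F S hF hbr
    intro f k
    obtain ⟨B', R', h'⟩ := short_eval f ((g : ℤ) ^ L - 1) (g ^ (2 * L + 1)) R
    obtain ⟨C, hC⟩ := sums_large (range (B' + 1)) R' k
    refine ⟨C, fun A hA => hC (((g : ℤ) ^ L - 1) ^ f.natDegree) ?_ A ?_⟩
    · refine pow_ne_zero _ ?_
      have h1 : 2 ^ 1 ≤ g ^ L := (Nat.pow_le_pow_left hg 1).trans
        (Nat.pow_le_pow_right (by omega) hL)
      have h2 : (2 : ℤ) ≤ (g : ℤ) ^ L := by exact_mod_cast h1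
      linarith
    · intro a ha
      obtain ⟨n, hn, rfl⟩ := hA a ha
      exact h' n (h n hn)

end Pool.Agent.T3h26.AS
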